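import Mathlib

/-!
# Sublevel sets of real polynomials on the integers, and sums over pairs of integers
-/

set_option autoImplicit false

open Filter Topology Polynomial

noncomputable section

namespace Pool.Agent.Helper77.MX

theorem strictMono_gap {k : ℕ} {e : Fin k → ℤ} (he : StrictMono e) {i j : Fin k} (hij : i ≤ j) :
    ((j : ℕ) : ℤ) - ((i : ℕ) : ℤ) ≤ e j - e i := by
  obtain ⟨i, hi⟩ := i
  obtain ⟨j, hj⟩ := j
  have hij' : i ≤ j := hij
  obtain ⟨t, rfl⟩ := Nat.exists_eq_add_of_le hij'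
  clear hij hij'
  induction t with
  | zero => simp
  | succ t ih =>
    have h1 := ih (by omega)
    have h2 : e ⟨i + t, by omega⟩ < e ⟨i + (t + 1), hj⟩ := he (by
      rw [Fin.lt_def]
      show i + t < i + (t + 1)
      omega)
    push_cast at h1 ⊢
    linarith

/-- sublevel sets of a polynomial with a large leading coefficient are small -/
theorem card_sublevel {P : ℝ[X]} {d : ℕ} (hd : P.natDegree = d) (h1 : 1 ≤ d) {c : ℝ} (hc : 0 < c)
    (hP : c ≤ |P.leadingCoeff|) {T : ℝ} (hT : 0 ≤ T) {Z : Finset ℤ}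
    (hZ : ∀ n ∈ Z, |P.eval (n : ℝ)| < T) : (Z.card : ℝ) ≤ d * ((d + 1) * T / c + 1) := by
  classical
  by_contra hcon
  rw [not_le] at hcon
  set s : ℕ := ⌊(d + 1) * T / c⌋₊ + 1 with hs
  have hs1 : (1 : ℝ) ≤ s := by
    rw [hs]
    push_cast
    have : (0 : ℝ) ≤ ⌊(d + 1) * T / c⌋₊ := Nat.cast_nonneg _
    linarith
  have hsT : (d + 1) * T / c < s := by
    rw [hs]
    push_cast
    exact Nat.lt_floor_add_one _
  have hcard : d * s < Z.card := by
    have h2 : ((d * s : ℕ) : ℝ) ≤ d * ((d + 1) * T / c + 1) := by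
      push_cast
      refine mul_le_mul_of_nonneg_left ?_ (Nat.cast_nonneg _)
      rw [hs]
      push_cast
      have := Nat.floor_le (show (0 : ℝ) ≤ (d + 1) * T / c by positivity)
      linarith
    exact_mod_cast h2.trans_lt hcon
  set e := Z.orderEmbOfFin rfl with he
  have hidx : ∀ i : Fin (d + 1), (i : ℕ) * s < Z.card := by
    intro i
    have h3 : (i : ℕ) ≤ d := by omega
    exact (Nat.mul_le_mul_right s h3).trans_lt hcard
  set v : Fin (d + 1) → ℝ := fun i => ((e ⟨(i : ℕ) * s, hidx i⟩ : ℤ) : ℝ) with hv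
  have hgap : ∀ i j : Fin (d + 1), i < j → (s : ℝ) ≤ v j - v i := by
    intro i j hij
    have h2 := strictMono_gap (e := e) e.strictMono
      (i := ⟨(i : ℕ) * s, hidx i⟩) (j := ⟨(j : ℕ) * s, hidx j⟩) (by
        rw [Fin.le_def]
        exact Nat.mul_le_mul_right s (Fin.lt_def.1 hij).le)
    have h3 : (s : ℤ) ≤ (((j : ℕ) * s : ℕ) : ℤ) - (((i : ℕ) * s : ℕ) : ℤ) := by
      have h4 : (i : ℕ) + 1 ≤ j := Fin.lt_def.1 hij
      have h5 : ((i : ℕ) + 1) * s ≤ j * s := Nat.mul_le_mul_right s h4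
      have h6 : (((i : ℕ) + 1) * s : ℤ) ≤ (j : ℕ) * s := by exact_mod_cast h5
      push_cast
      linarith
    have h4 := h3.trans h2
    show (s : ℝ) ≤ ((e ⟨(j : ℕ) * s, hidx j⟩ : ℤ) : ℝ) - ((e ⟨(i : ℕ) * s, hidx i⟩ : ℤ) : ℝ)
    exact_mod_cast h4
  have hgap' : ∀ i j : Fin (d + 1), i ≠ j → (s : ℝ) ≤ |v i - v j| := by
    intro i j hij
    rcases lt_or_gt_of_ne hij with h | h
    · rw [abs_sub_comm]
      exact (hgap i j h).trans (le_abs_self _)
    · exact (hgap j i h).trans (le_abs_self _)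
  have hinj : Set.InjOn v ((Finset.univ : Finset (Fin (d + 1))) : Set (Fin (d + 1))) := by
    intro i _ j _ hij
    by_contra hne
    have := hgap' i j hne
    rw [hij, sub_self, abs_zero] at this
    linarith
  have hlead := Lagrange.leadingCoeff_eq_sum (s := Finset.univ) hinj (P := P) (by
    have hP0 : P ≠ 0 := by
      rintro rfl
      rw [natDegree_zero] at hd
      omega
    rw [degree_eq_natDegree hP0, hd, Finset.card_univ, Fintype.card_fin]
    push_cast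
    rfl)
  have hbound : |P.leadingCoeff| ≤ ∑ _i : Fin (d + 1), T / s := by
    rw [hlead]
    refine (Finset.abs_sum_le_sum_abs _ _).trans (Finset.sum_le_sum fun i _ => ?_)
    rw [abs_div]
    have hnum : |P.eval (v i)| ≤ T := by
      have := hZ (e ⟨(i : ℕ) * s, hidx i⟩) (Z.orderEmbOfFin_mem rfl _)
      exact this.le
    have hden : (s : ℝ) ≤ |∏ j ∈ Finset.univ.erase i, (v i - v j)| := by
      rw [Finset.abs_prod]
      calc (s : ℝ) ≤ (s : ℝ) ^ d := le_self_pow₀ hs1 (by omega)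
        _ = ∏ _j ∈ Finset.univ.erase i, (s : ℝ) := by
            rw [Finset.prod_const, Finset.card_erase_of_mem (Finset.mem_univ _),
              Finset.card_univ, Fintype.card_fin, Nat.add_sub_cancel]
        _ ≤ ∏ j ∈ Finset.univ.erase i, |v i - v j| := by
            refine Finset.prod_le_prod (fun _ _ => by linarith) fun j hj => ?_
            exact hgap' i j (Finset.ne_of_mem_erase hj).symm
    exact div_le_div₀ hT hnum (by linarith) hden
  rw [Finset.sum_const, Finset.card_univ, Fintype.card_fin, nsmul_eq_mul] at hbound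
  have h6 : c ≤ ((d + 1 : ℕ) : ℝ) * (T / s) := hP.trans hbound
  have h7 : (0 : ℝ) < s := by linarith
  rw [div_lt_iff₀ hc] at hsT
  rw [mul_div_assoc', le_div_iff₀ h7] at h6
  push_cast at h6
  linarith [mul_comm c (s : ℝ)]

/-- The sum of `(1 + |P(n)|)⁻³` is bounded in terms of the degree and a lower bound of the leading
coefficient. -/
theorem sum_cube {d : ℕ} (h1 : 1 ≤ d) {c : ℝ} (hc : 0 < c) : ∃ K : ℝ, 0 ≤ K ∧ ∀ P : ℝ[X],
    P.natDegree = d → c ≤ |P.leadingCoeff| → ∀ Z : Finset ℤ,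
      ∑ n ∈ Z, ((1 + |P.eval (n : ℝ)|) ^ 3)⁻¹ ≤ K := by
  classical
  set A : ℝ := d * ((d + 1) / c + 1) with hA
  have hA0 : 0 ≤ A := by positivity
  have hsum : Summable fun k : ℕ => A * (1 / (((k : ℝ) + 1) ^ 2)) := by
    have h2 : Summable fun k : ℕ => (1 : ℝ) / ((k : ℝ)) ^ 2 :=
      Real.summable_one_div_nat_pow.2 (by norm_num)
    have h3 := (summable_nat_add_iff 1).2 h2
    refine (h3.mul_left A).congr fun k => ?_
    push_cast
    rfl
  refine ⟨∑' k : ℕ, A * (1 / (((k : ℝ) + 1) ^ 2)), tsum_nonneg fun k => by positivity,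
    fun P hd hP Z => ?_⟩
  set φ : ℤ → ℕ := fun n => ⌊|P.eval (n : ℝ)|⌋₊ with hφ
  have hfib : ∀ k ∈ Z.image φ, ∑ n ∈ Z.filter (fun n => φ n = k), ((1 + |P.eval (n : ℝ)|) ^ 3)⁻¹ ≤
      A * (1 / (((k : ℝ) + 1) ^ 2)) := by
    intro k _
    have hc1 : ((Z.filter fun n => φ n = k).card : ℝ) ≤ d * ((d + 1) * (k + 1) / c + 1) := by
      refine card_sublevel hd h1 hc hP (by positivity) fun n hn => ?_
      rw [Finset.mem_filter] at hn
      have := Nat.lt_floor_add_one (|P.eval (n : ℝ)|)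
      have h3 : (⌊|P.eval (n : ℝ)|⌋₊ : ℝ) = k := by
        rw [← hn.2]
      rw [h3] at this
      exact this
    have hc2 : (d : ℝ) * ((d + 1) * (k + 1) / c + 1) ≤ A * (k + 1) := by
      rw [hA]
      have e : (d : ℝ) * ((d + 1) / c + 1) * (k + 1) =
        d * ((d + 1) * (k + 1) / c + 1) + d * k := by
        field_simp
        ring
      rw [e]
      have : (0 : ℝ) ≤ d * k := by positivity
      linarith
    calc ∑ n ∈ Z.filter (fun n => φ n = k), ((1 + |P.eval (n : ℝ)|) ^ 3)⁻¹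
        ≤ ∑ _n ∈ Z.filter (fun n => φ n = k), (((k : ℝ) + 1) ^ 3)⁻¹ := by
          refine Finset.sum_le_sum fun n hn => ?_
          rw [Finset.mem_filter] at hn
          have h3 : (k : ℝ) ≤ |P.eval (n : ℝ)| := by
            rw [← hn.2]
            exact Nat.floor_le (abs_nonneg _)
          apply inv_anti₀ (by positivity)
          apply pow_le_pow_left₀ (by positivity)
          linarith
      _ = ((Z.filter fun n => φ n = k).card : ℝ) * (((k : ℝ) + 1) ^ 3)⁻¹ := by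
          rw [Finset.sum_const, nsmul_eq_mul]
      _ ≤ A * (k + 1) * (((k : ℝ) + 1) ^ 3)⁻¹ :=
          mul_le_mul_of_nonneg_right (hc1.trans hc2) (by positivity)
      _ = A * (1 / (((k : ℝ) + 1) ^ 2)) := by
          have : (k : ℝ) + 1 ≠ 0 := by positivity
          field_simp
  calc ∑ n ∈ Z, ((1 + |P.eval (n : ℝ)|) ^ 3)⁻¹
      = ∑ k ∈ Z.image φ, ∑ n ∈ Z.filter (fun n => φ n = k),
          ((1 + |P.eval (n : ℝ)|) ^ 3)⁻¹ := by
        rw [Finset.sum_fiberwise_of_maps_to]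
        intro n hn
        exact Finset.mem_image_of_mem φ hn
    _ ≤ ∑ k ∈ Z.image φ, A * (1 / (((k : ℝ) + 1) ^ 2)) := Finset.sum_le_sum hfib
    _ ≤ ∑' k : ℕ, A * (1 / (((k : ℝ) + 1) ^ 2)) :=
        hsum.sum_le_tsum _ fun k _ => by positivity

theorem young {δ u v : ℝ} (hδ : 0 < δ) (hδ1 : δ ≤ 1) (hu : 1 ≤ u) (hv : 1 ≤ v) :
    u ^ (-δ) * v ^ (-(1 - δ / 8)) ≤ v ^ (-(1 + δ / 8)) + (u ^ 3)⁻¹ := by
  have hu0 : 0 < u := by linarith
  have hv0 : 0 < v := by linarith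
  by_cases h : v ^ ((1 : ℝ) / 4) ≤ u
  · have h1 : u ^ (-δ) ≤ v ^ (-(δ / 4)) := by
      calc u ^ (-δ) ≤ (v ^ ((1 : ℝ) / 4)) ^ (-δ) :=
            Real.rpow_le_rpow_of_nonpos (by positivity) h (by linarith)
        _ = v ^ (-(δ / 4)) := by
            rw [← Real.rpow_mul hv0.le]
            congr 1
            ring
    calc u ^ (-δ) * v ^ (-(1 - δ / 8)) ≤ v ^ (-(δ / 4)) * v ^ (-(1 - δ / 8)) :=
          mul_le_mul_of_nonneg_right h1 (by positivity)
      _ = v ^ (-(1 + δ / 8)) := by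
          rw [← Real.rpow_add hv0]
          congr 1
          ring
      _ ≤ _ := le_add_of_nonneg_right (by positivity)
  · rw [not_le] at h
    have h1 : u ^ (-δ) ≤ 1 := Real.rpow_le_one_of_one_le_of_nonpos hu (by linarith)
    have h2 : u ^ (4 : ℝ) ≤ v := by
      calc u ^ (4 : ℝ) ≤ (v ^ ((1 : ℝ) / 4)) ^ (4 : ℝ) :=
            Real.rpow_le_rpow hu0.le h.le (by norm_num)
        _ = v := by
            rw [← Real.rpow_mul hv0.le]
            norm_num
    have h3 : v ^ (-(1 - δ / 8)) ≤ (u ^ 3)⁻¹ := by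
      calc v ^ (-(1 - δ / 8)) ≤ (u ^ (4 : ℝ)) ^ (-(1 - δ / 8)) :=
            Real.rpow_le_rpow_of_nonpos (by positivity) h2 (by linarith)
        _ = u ^ (-(4 - δ / 2)) := by
            rw [← Real.rpow_mul hu0.le]
            congr 1
            ring
        _ ≤ u ^ (-(3 : ℝ)) := Real.rpow_le_rpow_of_exponent_le hu (by linarith)
        _ = (u ^ 3)⁻¹ := by
            rw [Real.rpow_neg hu0.le]
            norm_num
    calc u ^ (-δ) * v ^ (-(1 - δ / 8)) ≤ 1 * (u ^ 3)⁻¹ :=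
          mul_le_mul h1 h3 (by positivity) zero_le_one
      _ = (u ^ 3)⁻¹ := one_mul _
      _ ≤ _ := le_add_of_nonneg_left (by positivity)

theorem summable_int_rpow {κ : ℝ} (hκ : 0 < κ) :
    Summable fun n : ℤ => (1 + |(n : ℝ)|) ^ (-(1 + κ)) := by
  have h1 : Summable fun n : ℕ => ((n : ℝ) + 1) ^ (-(1 + κ)) := by
    have h2 : Summable fun n : ℕ => ((n : ℝ)) ^ (-(1 + κ)) :=
      Real.summable_nat_rpow.2 (by linarith)
    refine ((summable_nat_add_iff 1).2 h2).congr fun n => ?_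
    push_cast
    rfl
  refine Summable.of_nat_of_neg ?_ ?_
  · refine h1.congr fun n => ?_
    rw [Int.cast_natCast, abs_of_nonneg (Nat.cast_nonneg n), add_comm]
  · refine h1.congr fun n => ?_
    rw [Int.cast_neg, abs_neg, Int.cast_natCast, abs_of_nonneg (Nat.cast_nonneg n), add_comm]

/-- the diagonal sums -/
theorem summable_diagonal {q : ℝ[X]} (hq : 0 < q.natDegree) {δ : ℝ} (hδ : 0 < δ) (hδ1 : δ ≤ 1) :
    Summable fun n : ℤ => (1 + |q.eval (n : ℝ)|) ^ (-δ) / (1 + |(n : ℝ)|) := by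
  have hq0 : q ≠ 0 := by
    rintro rfl
    simp at hq
  obtain ⟨K, hK0, hK⟩ := sum_cube (d := q.natDegree) hq
    (c := |q.leadingCoeff|) (abs_pos.2 (leadingCoeff_ne_zero.2 hq0))
  have h3 : Summable fun n : ℤ => ((1 + |q.eval (n : ℝ)|) ^ 3)⁻¹ :=
    summable_of_sum_le (fun n => by positivity) fun Z => hK q rfl le_rfl Z
  refine Summable.of_nonneg_of_le (fun n => by positivity) (fun n => ?_)
    ((summable_int_rpow (κ := δ / 8) (by positivity)).add h3)
  have hu : (1 : ℝ) ≤ 1 + |q.eval (n : ℝ)| := by linarith [abs_nonneg (q.eval (n : ℝ))]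
  have hv : (1 : ℝ) ≤ 1 + |(n : ℝ)| := by linarith [abs_nonneg (n : ℝ)]
  refine le_trans ?_ (young hδ hδ1 hu hv)
  rw [div_eq_mul_inv]
  refine mul_le_mul_of_nonneg_left ?_ (by positivity)
  rw [← Real.rpow_neg_one]
  exact Real.rpow_le_rpow_of_exponent_le hv (by linarith)

/-- sums over pairs, for a family of polynomials in the second variable -/
theorem summable_family {P : ℤ → ℝ[X]} {d : ℕ} (h1 : 1 ≤ d) {c : ℝ} (hc : 0 < c) {E : Set ℤ}
    (hE : E.Finite) (hP : ∀ n ∉ E, (P n).natDegree = d ∧ c ≤ |(P n).leadingCoeff|)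
    {δ : ℝ} (hδ : 0 < δ) (hδ1 : δ ≤ 1) :
    Summable fun p : ℤ × ℤ => (1 + |(P p.1).eval (p.2 : ℝ)|) ^ (-δ) /
      (1 + max |(p.1 : ℝ)| |(p.2 : ℝ)|) ^ 2 := by
  classical
  obtain ⟨K, hK0, hK⟩ := sum_cube (d := d) h1 hc
  set κ : ℝ := δ / 8 with hκ
  have hκ0 : 0 < κ := by positivity
  set S : ℝ := ∑' n : ℤ, (1 + |(n : ℝ)|) ^ (-(1 + κ)) with hS
  have hSs := summable_int_rpow hκ0
  have hSle : ∀ Z : Finset ℤ, ∑ n ∈ Z, (1 + |(n : ℝ)|) ^ (-(1 + κ)) ≤ S := fun Z =>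
    hSs.sum_le_tsum _ fun n _ => by positivity
  have hS0 : 0 ≤ S := tsum_nonneg fun n => by positivity
  set F : ℤ × ℤ → ℝ := fun p => (1 + |(P p.1).eval (p.2 : ℝ)|) ^ (-δ) /
    (1 + max |(p.1 : ℝ)| |(p.2 : ℝ)|) ^ 2 with hF
  have hF0 : ∀ p, 0 ≤ F p := fun p => by
    show 0 ≤ (1 + |(P p.1).eval (p.2 : ℝ)|) ^ (-δ) / (1 + max |(p.1 : ℝ)| |(p.2 : ℝ)|) ^ 2
    positivity
  have hmax : ∀ n n' : ℤ, ((1 + max |(n : ℝ)| |(n' : ℝ)|) ^ 2)⁻¹ ≤
      (1 + |(n : ℝ)|) ^ (-(1 + κ)) * (1 + |(n' : ℝ)|) ^ (-(1 - κ)) := by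
    intro n n'
    set M : ℝ := 1 + max |(n : ℝ)| |(n' : ℝ)| with hM
    have hM1 : 1 + |(n : ℝ)| ≤ M := by
      rw [hM]
      linarith [le_max_left |(n : ℝ)| |(n' : ℝ)|]
    have hM2 : 1 + |(n' : ℝ)| ≤ M := by
      rw [hM]
      linarith [le_max_right |(n : ℝ)| |(n' : ℝ)|]
    have hM0 : 0 < M := by
      have := abs_nonneg (n : ℝ)
      linarith
    have e : (M ^ 2)⁻¹ = M ^ (-(1 + κ)) * M ^ (-(1 - κ)) := by
      rw [← Real.rpow_add hM0, show -(1 + κ) + -(1 - κ) = -((2 : ℕ) : ℝ) by push_cast; ring,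
        Real.rpow_neg hM0.le, Real.rpow_natCast]
    rw [e]
    refine mul_le_mul ?_ ?_ (by positivity) (by positivity)
    · exact Real.rpow_le_rpow_of_nonpos (by positivity) hM1 (by linarith)
    · exact Real.rpow_le_rpow_of_nonpos (by positivity) hM2 (by
        have : κ ≤ 1 := by rw [hκ]; linarith
        linarith)
  have hbad : ∀ n n' : ℤ, F (n, n') ≤ (1 + |(n' : ℝ)|) ^ (-(1 + κ)) := by
    intro n n'
    have hu : (1 : ℝ) ≤ 1 + |(P n).eval (n' : ℝ)| := by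
      linarith [abs_nonneg ((P n).eval (n' : ℝ))]
    have hv : (1 : ℝ) ≤ 1 + |(n' : ℝ)| := by linarith [abs_nonneg (n' : ℝ)]
    have h2 : (1 + |(P n).eval (n' : ℝ)|) ^ (-δ) ≤ 1 :=
      Real.rpow_le_one_of_one_le_of_nonpos hu (by linarith)
    have h3 : ((1 + max |(n : ℝ)| |(n' : ℝ)|) ^ 2)⁻¹ ≤ (1 + |(n' : ℝ)|) ^ (-(1 + κ)) := by
      calc ((1 + max |(n : ℝ)| |(n' : ℝ)|) ^ 2)⁻¹ ≤ ((1 + |(n' : ℝ)|) ^ 2)⁻¹ := by
            apply inv_anti₀ (by positivity)
            apply pow_le_pow_left₀ (by positivity)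
            linarith [le_max_right |(n : ℝ)| |(n' : ℝ)|]
        _ = (1 + |(n' : ℝ)|) ^ (-((2 : ℕ) : ℝ)) := by
            rw [Real.rpow_neg (by positivity), Real.rpow_natCast]
        _ ≤ (1 + |(n' : ℝ)|) ^ (-(1 + κ)) :=
            Real.rpow_le_rpow_of_exponent_le hv (by
              push_cast
              have : κ ≤ 1 := by rw [hκ]; linarith
              linarith)
    show (1 + |(P n).eval (n' : ℝ)|) ^ (-δ) / (1 + max |(n : ℝ)| |(n' : ℝ)|) ^ 2 ≤ _
    rw [div_eq_mul_inv]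
    calc _ ≤ 1 * (1 + |(n' : ℝ)|) ^ (-(1 + κ)) :=
          mul_le_mul h2 h3 (by positivity) zero_le_one
      _ = _ := one_mul _
  have hgood : ∀ n n' : ℤ, F (n, n') ≤ (1 + |(n : ℝ)|) ^ (-(1 + κ)) *
      ((1 + |(n' : ℝ)|) ^ (-(1 + κ)) + ((1 + |(P n).eval (n' : ℝ)|) ^ 3)⁻¹) := by
    intro n n'
    have hu : (1 : ℝ) ≤ 1 + |(P n).eval (n' : ℝ)| := by
      linarith [abs_nonneg ((P n).eval (n' : ℝ))]
    have hv : (1 : ℝ) ≤ 1 + |(n' : ℝ)| := by linarith [abs_nonneg (n' : ℝ)]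
    show (1 + |(P n).eval (n' : ℝ)|) ^ (-δ) / (1 + max |(n : ℝ)| |(n' : ℝ)|) ^ 2 ≤ _
    rw [div_eq_mul_inv]
    calc (1 + |(P n).eval (n' : ℝ)|) ^ (-δ) * ((1 + max |(n : ℝ)| |(n' : ℝ)|) ^ 2)⁻¹
        ≤ (1 + |(P n).eval (n' : ℝ)|) ^ (-δ) *
          ((1 + |(n : ℝ)|) ^ (-(1 + κ)) * (1 + |(n' : ℝ)|) ^ (-(1 - κ))) :=
          mul_le_mul_of_nonneg_left (hmax n n') (by positivity)
      _ = (1 + |(n : ℝ)|) ^ (-(1 + κ)) * ((1 + |(P n).eval (n' : ℝ)|) ^ (-δ) *
          (1 + |(n' : ℝ)|) ^ (-(1 - κ))) := by ring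
      _ ≤ _ := mul_le_mul_of_nonneg_left (young hδ hδ1 hu hv) (by positivity)
  refine summable_of_sum_le (c := hE.toFinset.card * S + S * (S + K)) hF0 fun Z => ?_
  set Z₁ := Z.image Prod.fst with hZ₁
  set Z₂ := Z.image Prod.snd with hZ₂
  have hsub : Z ⊆ Z₁ ×ˢ Z₂ := by
    intro p hp
    rw [Finset.mem_product]
    exact ⟨Finset.mem_image_of_mem _ hp, Finset.mem_image_of_mem _ hp⟩
  calc ∑ p ∈ Z, F p ≤ ∑ p ∈ Z₁ ×ˢ Z₂, F p :=
        Finset.sum_le_sum_of_subset_of_nonneg hsub fun p _ _ => hF0 p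
    _ = ∑ n ∈ Z₁, ∑ n' ∈ Z₂, F (n, n') := Finset.sum_product _ _ _
    _ ≤ ∑ n ∈ Z₁, ((if n ∈ hE.toFinset then S else 0) + (1 + |(n : ℝ)|) ^ (-(1 + κ)) * (S + K)) := by
        refine Finset.sum_le_sum fun n _ => ?_
        by_cases hn : n ∈ hE.toFinset
        · rw [if_pos hn]
          refine le_trans ?_ (le_add_of_nonneg_right (by positivity))
          exact (Finset.sum_le_sum fun n' _ => hbad n n').trans (hSle Z₂)
        · rw [if_neg hn, zero_add]
          have hn' : n ∉ E := fun h => hn (hE.mem_toFinset.2 h)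
          calc ∑ n' ∈ Z₂, F (n, n') ≤ ∑ n' ∈ Z₂, (1 + |(n : ℝ)|) ^ (-(1 + κ)) *
                ((1 + |(n' : ℝ)|) ^ (-(1 + κ)) + ((1 + |(P n).eval (n' : ℝ)|) ^ 3)⁻¹) :=
                Finset.sum_le_sum fun n' _ => hgood n n'
            _ = (1 + |(n : ℝ)|) ^ (-(1 + κ)) * (∑ n' ∈ Z₂, (1 + |(n' : ℝ)|) ^ (-(1 + κ)) +
                ∑ n' ∈ Z₂, ((1 + |(P n).eval (n' : ℝ)|) ^ 3)⁻¹) := by
                rw [← Finset.mul_sum, Finset.sum_add_distrib]
            _ ≤ _ := mul_le_mul_of_nonneg_left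
                (add_le_add (hSle Z₂) (hK _ (hP n hn').1 (hP n hn').2 Z₂)) (by positivity)
    _ = ∑ n ∈ Z₁, (if n ∈ hE.toFinset then S else 0) +
        (∑ n ∈ Z₁, (1 + |(n : ℝ)|) ^ (-(1 + κ))) * (S + K) := by
        rw [Finset.sum_add_distrib, Finset.sum_mul]
    _ ≤ hE.toFinset.card * S + S * (S + K) := by
        refine add_le_add ?_ (mul_le_mul_of_nonneg_right (hSle Z₁) (by positivity))
        rw [← Finset.sum_filter, Finset.sum_const, nsmul_eq_mul]
        refine mul_le_mul_of_nonneg_right ?_ hS0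
        have : Z₁.filter (fun n => n ∈ hE.toFinset) ⊆ hE.toFinset := fun n hn =>
          (Finset.mem_filter.1 hn).2
        exact_mod_cast Finset.card_le_card this

end Pool.Agent.Helper77.MX
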