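import Pool.Agent.Helper77.MX.Real

/-!
# Extension in all slots, and the base is characteristic for mixing with a rate
-/

set_option autoImplicit false
set_option linter.unusedSectionVars false

open MeasureTheory Filter Topology
open scoped ENNReal

noncomputable section

namespace Pool.Agent.Helper77.MX

open Pool.Agent.TH784.KE (Flow)
open Pool.Agent.TH739.PA (av avr Good LP avr_mul av_mul av_ofReal mx LP_two_sided)
open Pool.Agent.W761.Gauss (BM)
open Pool.Agent.Helper77.KS (P0 P0_add P0_smul P0_unif P0_mean prod_upd dec re_abs)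

variable {X : Type} {mY mX : MeasurableSpace X} {μ : Measure X} [IsProbabilityMeasure μ]
variable {G : Type} [Group G] {Φ : G →* Equiv.Perm X}
variable {J : Type} [DecidableEq J] [Fintype J] {I ι : Type} {𝔣 : Filter I} {Bx : I → Finset ι}

/-- `F` can be approximated by the functions in the span of `𝒜`. -/
def App (𝔣 : Filter I) (Bx : I → Finset ι) (μ : Measure X) (Φ : G →* Equiv.Perm X) (t : ι → G)
    (𝒜 : Set (X → ℂ)) (F : X → ℂ) : Prop :=
  @BM X mX F ∧ ((@Good I ι X mX 𝔣 Bx μ (fun n => (Φ (t n) : X → X)) ∧ ∀ ε : ℝ, 0 < ε →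
      ∃ h ∈ Submodule.span ℂ 𝒜, ∫ x, ‖F x - h x‖ ∂μ ≤ ε) ∨
    ∀ ε : ℝ, 0 < ε → ∃ h ∈ Submodule.span ℂ 𝒜, ∀ᵐ x ∂μ, ‖F x - h x‖ ≤ ε)

theorem BM_span {𝒜 : Set (X → ℂ)} (h𝒜 : ∀ f ∈ 𝒜, BM f) {h : X → ℂ}
    (hh : h ∈ Submodule.span ℂ 𝒜) : BM h := by
  induction hh using Submodule.span_induction with
  | mem f hf => exact h𝒜 f hf
  | zero => exact ⟨measurable_const, 0, fun x => by simp⟩
  | add f g _ _ hf hg =>
    obtain ⟨h1, C, hC⟩ := hf
    obtain ⟨h2, C', hC'⟩ := hg
    exact ⟨h1.add h2, C + C', fun x => (norm_add_le _ _).trans (add_le_add (hC x) (hC' x))⟩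
  | smul c f _ hf =>
    obtain ⟨h1, C, hC⟩ := hf
    exact ⟨h1.const_smul c, ‖c‖ * C, fun x => by
      rw [Pi.smul_apply, norm_smul]
      exact mul_le_mul_of_nonneg_left (hC x) (norm_nonneg _)⟩

theorem P0_span {g : J → ι → G} {F : J → X → ℂ} {v : J} {𝒜 : Set (X → ℂ)}
    (H : ∀ f ∈ 𝒜, P0 𝔣 Bx μ Φ g (Function.update F v f)) {h : X → ℂ}
    (hh : h ∈ Submodule.span ℂ 𝒜) : P0 𝔣 Bx μ Φ g (Function.update F v h) := by
  induction hh using Submodule.span_induction with
  | mem f hf => exact H f hf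
  | zero =>
    refine Eventually.of_forall fun x => tendsto_const_nhds.congr fun N => ?_
    simp only [prod_upd, Pi.zero_apply, zero_mul]
    unfold Pool.Agent.TH739.PA.av
    simp
  | add f g _ _ hf hg => exact P0_add hf hg
  | smul c f _ hf => exact P0_smul c hf

/-- **Extension in all slots.** -/
theorem ext_slots [Countable ι] [𝔣.NeBot] [𝔣.IsCountablyGenerated] (hFl : Flow μ Φ)
    {g : J → ι → G} {𝒜 : J → Set (X → ℂ)} (h𝒜 : ∀ v, ∀ f ∈ 𝒜 v, BM f)
    (hbase : ∀ F : J → X → ℂ, (∀ v, F v ∈ 𝒜 v) → P0 𝔣 Bx μ Φ g F)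
    {F : J → X → ℂ} (hF : ∀ v, App 𝔣 Bx μ Φ (g v) (𝒜 v) (F v)) : P0 𝔣 Bx μ Φ g F := by
  classical
  have key : ∀ (B : Finset J) (F : J → X → ℂ), (∀ v ∈ B, App 𝔣 Bx μ Φ (g v) (𝒜 v) (F v)) →
      (∀ v ∉ B, F v ∈ 𝒜 v) → P0 𝔣 Bx μ Φ g F := by
    intro B
    induction B using Finset.induction_on with
    | empty => exact fun F _ hF2 => hbase F fun v => hF2 v (Finset.notMem_empty v)
    | insert v B hv ih =>
      intro F hF1 hF2
      have hBMall : ∀ w, BM (F w) := by
        intro w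
        by_cases hw : w ∈ insert v B
        · exact (hF1 w hw).1
        · exact h𝒜 w _ (hF2 w hw)
      have hone : ∀ h ∈ Submodule.span ℂ (𝒜 v), P0 𝔣 Bx μ Φ g (Function.update F v h) := by
        intro h hh
        refine P0_span (fun f hf => ih _ (fun w hw => ?_) fun w hw => ?_) hh
        · have hwv : w ≠ v := fun e => hv (e ▸ hw)
          rw [Function.update_of_ne hwv]
          exact hF1 w (Finset.mem_insert_of_mem hw)
        · by_cases hwv : w = v
          · subst hwv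
            rw [Function.update_self]
            exact hf
          · rw [Function.update_of_ne hwv]
            apply hF2
            intro hmem
            rcases Finset.mem_insert.mp hmem with h5 | h5
            · exact hwv h5
            · exact hw h5
      have hgoal : P0 𝔣 Bx μ Φ g (Function.update F v (F v)) := by
        obtain ⟨hBM, ⟨hgood, happ⟩ | happ⟩ := hF1 v (Finset.mem_insert_self v B)
        · refine P0_mean hFl hBMall hgood hBM fun ε hε => ?_
          obtain ⟨h, hh, h1⟩ := happ ε hε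
          exact ⟨h, BM_span (h𝒜 v) hh, h1, hone h hh⟩
        · refine P0_unif hFl hBMall fun ε hε => ?_
          obtain ⟨h, hh, h1⟩ := happ ε hε
          exact ⟨h, h1, hone h hh⟩
      rwa [Function.update_eq_self] at hgoal
  exact key Finset.univ F (fun v _ => hF v) fun v hv => absurd (Finset.mem_univ v) hv

/-- the basic functions -/
def Bas (mY : MeasurableSpace X) (𝒟 : Set (X → ℝ)) : Set (X → ℂ) :=
  {f | ∃ (c : X → ℝ) (u : X → ℝ), Measurable[mY] c ∧ (∀ x, |c x| ≤ 1) ∧ u ∈ 𝒟 ∧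
    f = fun x => ((c x * u x : ℝ) : ℂ)}

/-- `𝒴`-measurable real functions bounded by one -/
def BasY (mY : MeasurableSpace X) : Set (X → ℂ) :=
  {f | ∃ c : X → ℝ, Measurable[mY] c ∧ (∀ x, |c x| ≤ 1) ∧ f = fun x => ((c x : ℝ) : ℂ)}

theorem zero_base [𝔣.NeBot] (hFl : Flow μ Φ) (hYX : mY ≤ mX)
    (hinv : ∀ a, Measurable[mY, mY] (Φ a : X → X))
    {𝒟 : Set (X → ℝ)} {ρ : G → ℝ} {K : ℕ} (hM : Mix μ mY Φ 𝒟 ρ K)
    {S : Finset J} (hS : S.Nonempty) (hK : 2 * S.card ≤ K) {g : J → ι → G}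
    (hLP : ∀ C : ℝ, 0 ≤ C → LP 𝔣 Bx (fun p => C * qb ρ g p))
    (F : J → X → ℂ) (hF : ∀ v, F v ∈ if v ∈ S then Bas mY 𝒟 else BasY mY) :
    P0 𝔣 Bx μ Φ g F := by
  classical
  have h1 : ∀ v, ∃ c : X → ℝ, Measurable[mY] c ∧ (∀ x, |c x| ≤ 1) ∧ ∃ u : X → ℝ,
      (v ∈ S → u ∈ 𝒟) ∧ (v ∉ S → u = fun _ => 1) ∧ F v = fun x => ((c x * u x : ℝ) : ℂ) := by
    intro v
    have h := hF v
    by_cases hv : v ∈ S
    · rw [if_pos hv] at h
      obtain ⟨c, u, hc, hc1, hu, e⟩ := h
      exact ⟨c, hc, hc1, u, fun _ => hu, fun h => absurd hv h, e⟩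
    · rw [if_neg hv] at h
      obtain ⟨c, hc, hc1, e⟩ := h
      refine ⟨c, hc, hc1, fun _ => 1, fun h => absurd h hv, fun _ => rfl, ?_⟩
      rw [e]
      funext x
      simp
  choose c hc hc1 u huS huS' hFe using h1
  obtain ⟨C, hC0, hC⟩ := second hFl hYX hinv hM hS hK g (u := u) huS
  choose! Cu hCu using fun v (hv : v ∈ S) => (hM.bdd _ (huS v hv)).2
  set M : ℝ := ∏ v ∈ S, |Cu v| + 1 with hMdef
  have hP0 : 0 ≤ ∏ v ∈ S, |Cu v| := Finset.prod_nonneg fun _ _ => abs_nonneg _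
  have hM1 : 1 ≤ M := by rw [hMdef]; linarith
  have hM0 : 0 < M := lt_of_lt_of_le one_pos hM1
  set D : ι → X → ℝ := fun n x => (∏ v, c v (Φ (g v n) x)) * ∏ v ∈ S, u v (Φ (g v n) x) with hD
  have hDm : ∀ n, Measurable (D n) := fun n =>
    (Finset.measurable_fun_prod _ fun v _ => ((hc v).mono hYX le_rfl).comp
      (hFl _).measurable).mul (Finset.measurable_fun_prod _ fun v hv =>
      (hM.bdd _ (huS v hv)).1.comp (hFl _).measurable)
  have hDb : ∀ n x, |D n x| ≤ M := by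
    intro n x
    have e1 : |∏ v ∈ S, u v (Φ (g v n) x)| ≤ ∏ v ∈ S, |Cu v| := by
      rw [Finset.abs_prod]
      exact Finset.prod_le_prod (fun _ _ => abs_nonneg _)
        fun v hv => (hCu v hv _).trans (le_abs_self _)
    have e2 : |∏ v, c v (Φ (g v n) x)| ≤ 1 := by
      rw [Finset.abs_prod]
      exact Finset.prod_le_one (fun _ _ => abs_nonneg _) fun v _ => hc1 v _
    show |(∏ v, c v (Φ (g v n) x)) * ∏ v ∈ S, u v (Φ (g v n) x)| ≤ _
    rw [abs_mul]
    calc _ ≤ 1 * ∏ v ∈ S, |Cu v| := mul_le_mul e2 e1 (abs_nonneg _) zero_le_one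
      _ ≤ M := by rw [hMdef]; linarith
  have hlp := hLP C hC0 X mX μ inferInstance (fun n x => M⁻¹ * D n x)
    (fun n => (hDm n).const_mul _) (fun n x => by
      rw [abs_mul, abs_of_pos (inv_pos.2 hM0), ← div_eq_inv_mul, div_le_one hM0]
      exact hDb n x) (fun N => by
      have h2 := hC c hc hc1 (Bx N)
      have h3 : (fun x => (∑ n ∈ Bx N, M⁻¹ * D n x) ^ 2) =
          fun x => (M⁻¹) ^ 2 * (∑ n ∈ Bx N, D n x) ^ 2 := by
        funext x
        rw [← Finset.mul_sum]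
        ring
      rw [h3, integral_const_mul]
      have h4 : 0 ≤ ∫ x, (∑ n ∈ Bx N, D n x) ^ 2 ∂μ := integral_nonneg fun x => sq_nonneg _
      have h5 : (M⁻¹) ^ 2 ≤ 1 := pow_le_one₀ (inv_nonneg.2 hM0.le) (inv_le_one_of_one_le₀ hM1)
      calc (M⁻¹) ^ 2 * ∫ x, (∑ n ∈ Bx N, D n x) ^ 2 ∂μ ≤
          1 * ∫ x, (∑ n ∈ Bx N, D n x) ^ 2 ∂μ := mul_le_mul_of_nonneg_right h5 h4
        _ ≤ _ := by rw [one_mul]; exact h2)
  filter_upwards [hlp] with x hx
  have h6 := hx.const_mul M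
  rw [mul_zero] at h6
  have h7 := (Complex.continuous_ofReal.tendsto _).comp h6
  rw [Complex.ofReal_zero] at h7
  refine h7.congr fun N => ?_
  rw [Function.comp_apply, ← avr_mul, ← av_ofReal]
  congr 1
  funext n
  have h8 : ∏ j, F j (Φ (g j n) x) =
      ((∏ j, (c j (Φ (g j n) x) * u j (Φ (g j n) x)) : ℝ) : ℂ) := by
    rw [Complex.ofReal_prod]
    refine Finset.prod_congr rfl fun v _ => ?_
    rw [hFe v]
  rw [h8]
  congr 1
  rw [← mul_assoc, mul_inv_cancel₀ hM0.ne', one_mul, hD, Finset.prod_mul_distrib]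
  congr 1
  rw [← Finset.prod_mul_prod_compl S (fun v => u v (Φ (g v n) x))]
  have h9 : ∏ v ∈ Sᶜ, u v (Φ (g v n) x) = 1 := Finset.prod_eq_one fun v hv => by
    rw [huS' v (Finset.mem_compl.1 hv)]
  rw [h9, mul_one]

/-- bounded `𝒴`-measurable functions are in the span -/
theorem mem_spanY {e : X → ℂ} (he : Measurable[mY] e) {C : ℝ} (hC : ∀ x, ‖e x‖ ≤ C) :
    e ∈ Submodule.span ℂ (BasY mY) := by
  have h1 : e = (((|C| + 1 : ℝ) : ℂ) • fun x => (((e x).re / (|C| + 1) : ℝ) : ℂ)) +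
      (((|C| + 1 : ℝ) : ℂ) * Complex.I) • fun x => (((e x).im / (|C| + 1) : ℝ) : ℂ) := by
    funext x
    simp only [Pi.add_apply, Pi.smul_apply, smul_eq_mul]
    exact dec e C x
  rw [h1]
  refine Submodule.add_mem _ (Submodule.smul_mem _ _ (Submodule.subset_span ?_))
    (Submodule.smul_mem _ _ (Submodule.subset_span ?_))
  · exact ⟨_, (Complex.measurable_re.comp he).div_const _, fun x => (re_abs hC x).1, rfl⟩
  · exact ⟨_, (Complex.measurable_im.comp he).div_const _, fun x => (re_abs hC x).2, rfl⟩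

theorem mem_span {e : X → ℂ} (he : Measurable[mY] e) {C : ℝ} (hC : ∀ x, ‖e x‖ ≤ C)
    {𝒟 : Set (X → ℝ)} {u : X → ℝ} (hu : u ∈ 𝒟) :
    (fun x => e x * (u x : ℂ)) ∈ Submodule.span ℂ (Bas mY 𝒟) := by
  have h1 : (fun x => e x * (u x : ℂ)) =
      (((|C| + 1 : ℝ) : ℂ) • fun x => (((e x).re / (|C| + 1) * u x : ℝ) : ℂ)) +
      (((|C| + 1 : ℝ) : ℂ) * Complex.I) •
        fun x => (((e x).im / (|C| + 1) * u x : ℝ) : ℂ) := by
    funext x
    simp only [Pi.add_apply, Pi.smul_apply, smul_eq_mul]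
    conv_lhs => rw [dec e C x]
    push_cast
    ring
  rw [h1]
  refine Submodule.add_mem _ (Submodule.smul_mem _ _ (Submodule.subset_span ?_))
    (Submodule.smul_mem _ _ (Submodule.subset_span ?_))
  · exact ⟨_, u, (Complex.measurable_re.comp he).div_const _, fun x => (re_abs hC x).1, hu, rfl⟩
  · exact ⟨_, u, (Complex.measurable_im.comp he).div_const _, fun x => (re_abs hC x).2, hu, rfl⟩

/-- **The base is characteristic.** -/
theorem char [Countable ι] [𝔣.NeBot] [𝔣.IsCountablyGenerated] (hFl : Flow μ Φ) (hYX : mY ≤ mX)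
    (hinv : ∀ a, Measurable[mY, mY] (Φ a : X → X))
    {𝒟 : Set (X → ℝ)} {ρ : G → ℝ} {K : ℕ} (hM : Mix μ mY Φ 𝒟 ρ K)
    (hK : 2 * Fintype.card J ≤ K) {g : J → ι → G}
    (hLP : ∀ C : ℝ, 0 ≤ C → LP 𝔣 Bx (fun p => C * qb ρ g p))
    {f e : J → X → ℂ} (he : ∀ j, BM (e j)) (heY : ∀ j, Measurable[mY] (e j))
    (hslot : ∀ j, App 𝔣 Bx μ Φ (g j) (Bas mY 𝒟) fun x => f j x - e j x) :
    ∀ᵐ x ∂μ, Tendsto (fun N => av (Bx N) fun n => (∏ j, f j (Φ (g j n) x) -
      ∏ j, e j (Φ (g j n) x))) 𝔣 (𝓝 0) := by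
  classical
  have key : ∀ t : Finset J, t ≠ ∅ → ∀ᵐ x ∂μ, Tendsto (fun N => av (Bx N) fun n =>
      (∏ j ∈ t, (f j (Φ (g j n) x) - e j (Φ (g j n) x))) *
        ∏ j ∈ Finset.univ \ t, e j (Φ (g j n) x)) 𝔣 (𝓝 0) := by
    intro t ht
    have htn := Finset.nonempty_of_ne_empty ht
    have hcard : 2 * t.card ≤ K := (Nat.mul_le_mul_left 2 (Finset.card_le_univ t)).trans hK
    have hz := ext_slots (𝔣 := 𝔣) (Bx := Bx) hFl (g := g)
      (𝒜 := fun v => if v ∈ t then Bas mY 𝒟 else BasY mY) (fun v f hf => by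
        by_cases hv : v ∈ t
        · simp only [hv, if_true] at hf
          obtain ⟨c, u, hc, hc1, hu, rfl⟩ := hf
          obtain ⟨hum, C, hC⟩ := hM.bdd u hu
          refine ⟨Complex.measurable_ofReal.comp ((hc.mono hYX le_rfl).mul hum), 1 * |C|,
            fun x => ?_⟩
          rw [Complex.norm_real, Real.norm_eq_abs, abs_mul]
          exact mul_le_mul (hc1 x) ((hC x).trans (le_abs_self _)) (abs_nonneg _) zero_le_one
        · simp only [hv, if_false] at hf
          obtain ⟨c, hc, hc1, rfl⟩ := hf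
          refine ⟨Complex.measurable_ofReal.comp (hc.mono hYX le_rfl), 1, fun x => ?_⟩
          rw [Complex.norm_real, Real.norm_eq_abs]
          exact hc1 x) (fun F hF => zero_base hFl hYX hinv hM htn hcard hLP F hF)
      (F := fun j => if j ∈ t then (fun x => f j x - e j x) else e j) (fun v => by
        by_cases hv : v ∈ t
        · simp only [hv, if_true]
          exact hslot v
        · simp only [hv, if_false]
          obtain ⟨m₂, C₂, b₂⟩ := id (he v)
          refine ⟨he v, Or.inr fun ε hε => ⟨e v, mem_spanY (heY v) b₂, ?_⟩⟩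
          exact Eventually.of_forall fun x => by
            rw [sub_self, norm_zero]
            exact hε.le)
    filter_upwards [hz] with x hx
    refine hx.congr fun N => ?_
    congr 1
    funext n
    rw [← Finset.prod_mul_prod_compl t, ← Finset.compl_eq_univ_sdiff]
    congr 1
    · refine Finset.prod_congr rfl fun j hj => ?_
      rw [if_pos hj]
    · refine Finset.prod_congr rfl fun j hj => ?_
      rw [if_neg (Finset.mem_compl.1 hj)]
  have hall : ∀ᵐ x ∂μ, ∀ t : Finset J, t ≠ ∅ → Tendsto (fun N => av (Bx N) fun n =>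
      (∏ j ∈ t, (f j (Φ (g j n) x) - e j (Φ (g j n) x))) *
        ∏ j ∈ Finset.univ \ t, e j (Φ (g j n) x)) 𝔣 (𝓝 0) := by
    rw [ae_all_iff]
    intro t
    by_cases ht : t = ∅
    · exact Eventually.of_forall fun x h => absurd ht h
    · filter_upwards [key t ht] with x hx _
      exact hx
  filter_upwards [hall] with x hx
  have hsum := tendsto_finsetSum ((Finset.univ : Finset J).powerset.erase ∅) fun t ht =>
    hx t (Finset.ne_of_mem_erase ht)
  rw [Finset.sum_const_zero] at hsum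
  refine hsum.congr fun N => ?_
  have hav : ∀ (s : Finset (Finset J)) (a : Finset J → ι → ℂ),
      av (Bx N) (fun n => ∑ i ∈ s, a i n) = ∑ i ∈ s, av (Bx N) (a i) := by
    intro s a
    unfold Pool.Agent.TH739.PA.av
    rw [Finset.sum_comm, Finset.mul_sum]
  rw [← hav]
  congr 1
  funext n
  have h1 := Finset.prod_add (fun j => f j (Φ (g j n) x) - e j (Φ (g j n) x))
    (fun j => e j (Φ (g j n) x)) (Finset.univ : Finset J)
  have h2 : ∏ j, (f j (Φ (g j n) x) - e j (Φ (g j n) x) + e j (Φ (g j n) x)) =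
      ∏ j, f j (Φ (g j n) x) := Finset.prod_congr rfl fun j _ => by ring
  rw [h2, ← Finset.add_sum_erase _ _ (Finset.empty_mem_powerset _)] at h1
  rw [h1, Finset.prod_empty, one_mul, Finset.sdiff_empty]
  ring

end Pool.Agent.Helper77.MX
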