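import Pool.Agent.Helper77.MX.Cplx
import Pool.Agent.Helper77.KS.Main

/-!
# Mixing with a rate relative to a factor: the two-sided averages
-/

set_option autoImplicit false
set_option linter.unusedSectionVars false

open MeasureTheory Filter Topology
open scoped ENNReal

noncomputable section

namespace Pool.Agent.Helper77.MX

open Pool.Agent.TH784.KE (Flow exists_cond)
open Pool.Agent.TH739.PA (av avr Good LP Icc_card LP_two_sided good_pow mx mx_nonneg)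
open Pool.Agent.W761.Gauss (BM BM_of_memLp)
open Pool.Agent.Helper77.KS (P0 SingleAveragesConverge)

/-! ### Summability -/

theorem nat_part (a M : ℕ) : ∑ b ∈ Finset.range M, 1 / (1 + max (a : ℝ) b) ^ 2 ≤
    2 / (1 + (a : ℝ)) := by
  have hpos : ∀ b : ℕ, 0 ≤ 1 / (1 + max (a : ℝ) b) ^ 2 := fun b => by positivity
  have h1 : ∑ b ∈ Finset.range M, 1 / (1 + max (a : ℝ) b) ^ 2 ≤
      ∑ b ∈ Finset.range (a + 1 + M), 1 / (1 + max (a : ℝ) b) ^ 2 :=
    Finset.sum_le_sum_of_subset_of_nonneg (Finset.range_mono (by omega)) fun b _ _ => hpos b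
  refine h1.trans ?_
  rw [Finset.sum_range_add]
  have ha : (0 : ℝ) < 1 + a := by positivity
  have h2 : ∑ b ∈ Finset.range (a + 1), 1 / (1 + max (a : ℝ) b) ^ 2 ≤ 1 / (1 + (a : ℝ)) := by
    have h3 : ∀ b ∈ Finset.range (a + 1), 1 / (1 + max (a : ℝ) b) ^ 2 ≤ 1 / (1 + (a : ℝ)) ^ 2 := by
      intro b _
      have := le_max_left (a : ℝ) b
      exact one_div_le_one_div_of_le (by positivity) (pow_le_pow_left₀ ha.le (by linarith) 2)
    refine (Finset.sum_le_card_nsmul _ _ _ h3).trans (le_of_eq ?_)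
    rw [Finset.card_range, nsmul_eq_mul]
    push_cast
    field_simp
    ring
  have h4 : ∑ b ∈ Finset.range M, 1 / (1 + max (a : ℝ) ((a + 1 + b : ℕ) : ℝ)) ^ 2 ≤
      1 / (1 + (a : ℝ)) := by
    have h5 : ∀ b ∈ Finset.range M, 1 / (1 + max (a : ℝ) ((a + 1 + b : ℕ) : ℝ)) ^ 2 ≤
        1 / ((1 : ℝ) + a + b) - 1 / ((1 : ℝ) + a + (b + 1 : ℕ)) := by
      intro b _
      have h6 : max (a : ℝ) ((a + 1 + b : ℕ) : ℝ) = (a : ℝ) + 1 + b := by
        push_cast
        exact max_eq_right (by linarith [Nat.cast_nonneg (α := ℝ) b])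
      rw [h6]
      have hb : (0 : ℝ) ≤ b := Nat.cast_nonneg b
      have k0 : (0 : ℝ) < 1 + a + b := by positivity
      push_cast
      rw [div_sub_div _ _ (by positivity) (by positivity), div_le_div_iff₀ (by positivity)
        (by positivity)]
      nlinarith
    refine (Finset.sum_le_sum h5).trans ?_
    rw [Finset.sum_range_sub' (fun b : ℕ => 1 / ((1 : ℝ) + a + (b : ℝ)))]
    have : 0 ≤ 1 / ((1 : ℝ) + a + (M : ℝ)) := by positivity
    simp only [Nat.cast_zero, add_zero]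
    linarith
  have e : 2 / (1 + (a : ℝ)) = 1 / (1 + (a : ℝ)) + 1 / (1 + (a : ℝ)) := by ring
  rw [e]
  exact add_le_add h2 h4

theorem int_part (n : ℤ) : (Summable fun k : ℤ => 1 / (1 + max |(n : ℝ)| |(k : ℝ)|) ^ 2) ∧
    ∑' k : ℤ, 1 / (1 + max |(n : ℝ)| |(k : ℝ)|) ^ 2 ≤ 4 / (1 + |(n : ℝ)|) := by
  have hn : |(n : ℝ)| = (n.natAbs : ℝ) := by
    rw [← Int.cast_abs, Int.abs_eq_natAbs]
    rfl
  rw [hn]
  set a := n.natAbs with ha
  have hs : Summable fun b : ℕ => 1 / (1 + max (a : ℝ) b) ^ 2 :=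
    summable_of_sum_range_le (fun b => by positivity) (nat_part a)
  have ht : ∑' b : ℕ, 1 / (1 + max (a : ℝ) b) ^ 2 ≤ 2 / (1 + (a : ℝ)) :=
    Real.tsum_le_of_sum_range_le (fun b => by positivity) (nat_part a)
  have e1 : ∀ b : ℕ, 1 / (1 + max (a : ℝ) |(((b : ℕ) : ℤ) : ℝ)|) ^ 2 =
      1 / (1 + max (a : ℝ) b) ^ 2 := by
    intro b
    rw [Int.cast_natCast, Nat.abs_cast]
  have e2 : ∀ b : ℕ, 1 / (1 + max (a : ℝ) |((-((b : ℤ) + 1) : ℤ) : ℝ)|) ^ 2 =
      1 / (1 + max (a : ℝ) ((b + 1 : ℕ) : ℝ)) ^ 2 := by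
    intro b
    congr 4
    push_cast
    rw [abs_neg]
    exact abs_of_nonneg (by positivity)
  have hs1 : Summable fun b : ℕ => 1 / (1 + max (a : ℝ) |(((b : ℕ) : ℤ) : ℝ)|) ^ 2 :=
    hs.congr fun b => (e1 b).symm
  have hs' : Summable fun b : ℕ => 1 / (1 + max (a : ℝ) ((b + 1 : ℕ) : ℝ)) ^ 2 :=
    (summable_nat_add_iff 1).2 hs
  have hs2 : Summable fun b : ℕ => 1 / (1 + max (a : ℝ) |((-((b : ℤ) + 1) : ℤ) : ℝ)|) ^ 2 :=
    hs'.congr fun b => (e2 b).symm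
  refine ⟨Summable.of_nat_of_neg_add_one (f := fun k : ℤ =>
    1 / (1 + max (a : ℝ) |(k : ℝ)|) ^ 2) hs1 hs2, ?_⟩
  rw [tsum_of_nat_of_neg_add_one (f := fun k : ℤ => 1 / (1 + max (a : ℝ) |(k : ℝ)|) ^ 2) hs1 hs2]
  rw [tsum_congr e1, tsum_congr e2]
  have h3 : ∑' b : ℕ, 1 / (1 + max (a : ℝ) ((b + 1 : ℕ) : ℝ)) ^ 2 ≤
      ∑' b : ℕ, 1 / (1 + max (a : ℝ) b) ^ 2 := by
    rw [hs.tsum_eq_zero_add]
    have : 0 ≤ 1 / (1 + max (a : ℝ) ((0 : ℕ) : ℝ)) ^ 2 := by positivity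
    linarith
  have e3 : 4 / (1 + (a : ℝ)) = 2 / (1 + (a : ℝ)) + 2 / (1 + (a : ℝ)) := by ring
  rw [e3]
  exact add_le_add ht (h3.trans ht)

theorem summable_diag {r : ℤ → ℝ} (hr : ∀ n, 0 ≤ r n)
    (h : Summable fun n : ℤ => r n / (1 + |(n : ℝ)|)) :
    Summable fun p : ℤ × ℤ => r p.1 / (1 + mx p) ^ 2 := by
  have h0 : 0 ≤ fun p : ℤ × ℤ => r p.1 / (1 + mx p) ^ 2 := fun p => by
    have := mx_nonneg p
    exact div_nonneg (hr _) (by positivity)
  rw [summable_prod_of_nonneg h0]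
  have e : ∀ n k : ℤ, r n / (1 + mx (n, k)) ^ 2 = r n * (1 / (1 + max |(n : ℝ)| |(k : ℝ)|) ^ 2) := by
    intro n k
    unfold Pool.Agent.TH739.PA.mx
    rw [mul_one_div]
  refine ⟨fun n => ?_, ?_⟩
  · exact ((int_part n).1.mul_left (r n)).congr fun k => (e n k).symm
  · refine Summable.of_nonneg_of_le (fun n => tsum_nonneg fun k => h0 (n, k)) (fun n => ?_)
      (h.mul_left 4)
    have h1 : ∑' k : ℤ, r n / (1 + mx (n, k)) ^ 2 =
        r n * ∑' k : ℤ, 1 / (1 + max |(n : ℝ)| |(k : ℝ)|) ^ 2 := by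
      rw [← tsum_mul_left]
      exact tsum_congr fun k => e n k
    show ∑' k : ℤ, r n / (1 + mx (n, k)) ^ 2 ≤ _
    rw [h1]
    calc r n * ∑' k : ℤ, 1 / (1 + max |(n : ℝ)| |(k : ℝ)|) ^ 2 ≤ r n * (4 / (1 + |(n : ℝ)|)) :=
          mul_le_mul_of_nonneg_left (int_part n).2 (hr n)
      _ = 4 * (r n / (1 + |(n : ℝ)|)) := by ring

theorem mx_swap (p : ℤ × ℤ) : mx p.swap = mx p := max_comm _ _

variable {X G : Type} [Group G]

theorem summable_qb {ρ : G → ℝ} (hρ : ∀ a, 0 ≤ ρ a) {m : ℕ} {g : Fin m → ℤ → G}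
    (h1 : ∀ i j, Summable fun p : ℤ × ℤ => ρ (g i p.1 * (g j p.2)⁻¹) / (1 + mx p) ^ 2)
    (h2 : ∀ i j, i ≠ j → Summable fun n : ℤ => ρ (g i n * (g j n)⁻¹) / (1 + |(n : ℝ)|))
    (C : ℝ) : Summable fun p : ℤ × ℤ => C * qb ρ g p / (1 + mx p) ^ 2 := by
  have hsw : ∀ {F : ℤ × ℤ → ℝ}, Summable (fun p => F p / (1 + mx p) ^ 2) →
      Summable fun p => F p.swap / (1 + mx p) ^ 2 := by
    intro F hF
    have h := (Equiv.prodComm ℤ ℤ).summable_iff.2 hF
    refine h.congr fun p => ?_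
    show F p.swap / (1 + mx p.swap) ^ 2 = _
    rw [mx_swap]
  have a1 : Summable fun p : ℤ × ℤ =>
      (∑ i, ∑ j ∈ Finset.univ.erase i, ρ (g i p.1 * (g j p.1)⁻¹)) / (1 + mx p) ^ 2 := by
    have : (fun p : ℤ × ℤ =>
        (∑ i, ∑ j ∈ Finset.univ.erase i, ρ (g i p.1 * (g j p.1)⁻¹)) / (1 + mx p) ^ 2) =
        fun p => ∑ i, ∑ j ∈ Finset.univ.erase i, ρ (g i p.1 * (g j p.1)⁻¹) / (1 + mx p) ^ 2 := by
      funext p
      rw [Finset.sum_div]
      exact Finset.sum_congr rfl fun i _ => Finset.sum_div _ _ _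
    rw [this]
    refine summable_sum fun i _ => summable_sum fun j hj => ?_
    exact summable_diag (r := fun n => ρ (g i n * (g j n)⁻¹)) (fun n => hρ _)
      (h2 i j (Finset.ne_of_mem_erase hj).symm)
  have a3 : Summable fun p : ℤ × ℤ =>
      (∑ i, ∑ j, ρ (g i p.1 * (g j p.2)⁻¹)) / (1 + mx p) ^ 2 := by
    have : (fun p : ℤ × ℤ => (∑ i, ∑ j, ρ (g i p.1 * (g j p.2)⁻¹)) / (1 + mx p) ^ 2) =
        fun p => ∑ i, ∑ j, ρ (g i p.1 * (g j p.2)⁻¹) / (1 + mx p) ^ 2 := by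
      funext p
      rw [Finset.sum_div]
      exact Finset.sum_congr rfl fun i _ => Finset.sum_div _ _ _
    rw [this]
    exact summable_sum fun i _ => summable_sum fun j _ => h1 i j
  have a2 := hsw a1
  have a4 := hsw a3
  have h := (((a1.add a2).add a3).add a4).mul_left C
  refine h.congr fun p => ?_
  unfold qb
  simp only [Prod.fst_swap, Prod.snd_swap]
  ring

/-! ### Approximation -/

variable {mY mX : MeasurableSpace X} {μ : Measure X} [IsProbabilityMeasure μ]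
  {Φ : G →* Equiv.Perm X}

/-- The functions `e + ∑ c_i u_i` with bounded `𝒴`-measurable `e`, `c_i` and with `u_i` in `𝒟`. -/
def Sums (mY : MeasurableSpace X) (𝒟 : Set (X → ℝ)) : Set (X → ℂ) :=
  {h | ∃ (e : X → ℂ) (k : ℕ) (c : Fin k → X → ℂ) (u : Fin k → X → ℝ), Measurable[mY] e ∧
    (∃ C : ℝ, ∀ x, ‖e x‖ ≤ C) ∧ (∀ i, Measurable[mY] (c i)) ∧ (∀ i, ∃ C : ℝ, ∀ x, ‖c i x‖ ≤ C) ∧
    (∀ i, u i ∈ 𝒟) ∧ h = fun x => e x + ∑ i, c i x * (u i x : ℂ)}

theorem span_van (hYX : mY ≤ mX) {𝒟 : Set (X → ℝ)} {ρ : G → ℝ} {K : ℕ}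
    (hM : Mix μ mY Φ 𝒟 ρ K) (hK : 1 ≤ K) {h : X → ℂ} (hh : h ∈ Submodule.span ℂ (Bas mY 𝒟)) :
    @BM X mX h ∧ ∀ B : Set X, MeasurableSet[mY] B → ∫ x in B, h x ∂μ = 0 := by
  classical
  have hbm : ∀ f ∈ Bas mY 𝒟, @BM X mX f := by
    rintro f ⟨c, u, hc, hc1, hu, rfl⟩
    obtain ⟨hum, C, hC⟩ := hM.bdd u hu
    refine ⟨Complex.measurable_ofReal.comp ((hc.mono hYX le_rfl).mul hum), 1 * |C|,
      fun x => ?_⟩
    rw [Complex.norm_real, Real.norm_eq_abs, abs_mul]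
    exact mul_le_mul (hc1 x) ((hC x).trans (le_abs_self _)) (abs_nonneg _) zero_le_one
  refine ⟨BM_span hbm hh, ?_⟩
  intro B hB
  have key : ∀ f ∈ Submodule.span ℂ (Bas mY 𝒟), @BM X mX f ∧ ∫ x in B, f x ∂μ = 0 := by
    intro f hf
    refine ⟨BM_span hbm hf, ?_⟩
    induction hf using Submodule.span_induction with
    | mem f hf =>
      obtain ⟨c, u, hc, hc1, hu, rfl⟩ := hf
      obtain ⟨C, hC⟩ := hM.mix 1 le_rfl hK (fun _ => u) (fun _ => hu)
      have h1 := hC (fun _ => 1) (B.indicator c) (hc.indicator hB) (fun x => by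
        by_cases hx : x ∈ B
        · rw [Set.indicator_of_mem hx]; exact hc1 x
        · rw [Set.indicator_of_notMem hx, abs_zero]; exact zero_le_one)
      have e0 : ∑ i : Fin 1, ∑ j ∈ Finset.univ.erase i, ρ ((fun _ : Fin 1 => (1 : G)) i *
          ((fun _ : Fin 1 => (1 : G)) j)⁻¹) = 0 := by
        simp
      rw [e0, mul_zero] at h1
      have h2 := abs_nonpos_iff.1 h1
      have e1 : ∀ x, B.indicator c x * ∏ i : Fin 1, u (Φ ((fun _ : Fin 1 => (1 : G)) i) x) =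
          B.indicator (fun x => c x * u x) x := by
        intro x
        rw [Fin.prod_univ_one, map_one, Equiv.Perm.one_apply]
        by_cases hx : x ∈ B
        · rw [Set.indicator_of_mem hx, Set.indicator_of_mem hx]
        · rw [Set.indicator_of_notMem hx, Set.indicator_of_notMem hx, zero_mul]
      simp only [e1] at h2
      rw [integral_indicator (hYX _ hB)] at h2
      have h3 : ∫ x in B, (((c x * u x : ℝ)) : ℂ) ∂μ = ((∫ x in B, c x * u x ∂μ : ℝ) : ℂ) :=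
        integral_ofReal
      exact h3.trans (by rw [h2, Complex.ofReal_zero])
    | zero => simp
    | add f g hf hg h1 h2 =>
      obtain ⟨fm, Cf, hCf⟩ := BM_span hbm hf
      obtain ⟨gm, Cg, hCg⟩ := BM_span hbm hg
      have i1 : Integrable f μ := Integrable.of_bound fm.aestronglyMeasurable Cf
        (Eventually.of_forall hCf)
      have i2 : Integrable g μ := Integrable.of_bound gm.aestronglyMeasurable Cg
        (Eventually.of_forall hCg)
      rw [integral_add' i1.integrableOn i2.integrableOn, h1, h2, add_zero]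
    | smul c f hf h1 =>
      have e2 : ∀ x, (c • f) x = c * f x := fun x => rfl
      simp only [e2]
      rw [integral_const_mul, h1, mul_zero]
  exact (key h hh).2

/-- from the approximation of `f` to that of `f - E(f | 𝒴)` -/
theorem approx_sub (hYX : mY ≤ mX) {𝒟 : Set (X → ℝ)} {ρ : G → ℝ} {K : ℕ}
    (hM : Mix μ mY Φ 𝒟 ρ K) (hK : 1 ≤ K) {f e₀ : X → ℂ} (hf : @BM X mX f)
    (hee : e₀ =ᵐ[μ] μ[f | mY]) {s : X → ℂ} (hs : s ∈ Sums mY 𝒟) :
    ∃ h ∈ Submodule.span ℂ (Bas mY 𝒟),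
      (∀ ε : ℝ, ∫ x, ‖f x - s x‖ ∂μ ≤ ε → ∫ x, ‖f x - e₀ x - h x‖ ∂μ ≤ 2 * ε) ∧
      (∀ ε : ℝ, 0 ≤ ε → (∀ᵐ x ∂μ, ‖f x - s x‖ ≤ ε) → ∀ᵐ x ∂μ, ‖f x - e₀ x - h x‖ ≤ 2 * ε) := by
  obtain ⟨e, k, c, u, he, ⟨Ce, hCe⟩, hc, hcb, hu, hse⟩ := hs
  choose Cc hCc using hcb
  have hh : (∑ i, fun x => c i x * (u i x : ℂ)) ∈ Submodule.span ℂ (Bas mY 𝒟) :=
    Submodule.sum_mem _ fun i _ => mem_span (hc i) (hCc i) (hu i)
  set h : X → ℂ := ∑ i, fun x => c i x * (u i x : ℂ) with hdef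
  have hse' : ∀ x, s x = e x + h x := by
    intro x
    rw [hse, hdef, Finset.sum_apply]
  obtain ⟨⟨hhm, Ch, hCh⟩, hvan⟩ := span_van hYX hM hK hh
  obtain ⟨hfm, Cf, hCf⟩ := hf
  have hem : Measurable[mX] e := he.mono hYX le_rfl
  have hfi : Integrable f μ := Integrable.of_bound hfm.aestronglyMeasurable Cf
    (Eventually.of_forall hCf)
  have hhi : Integrable h μ := Integrable.of_bound hhm.aestronglyMeasurable Ch
    (Eventually.of_forall hCh)
  have hei : Integrable e μ := Integrable.of_bound hem.aestronglyMeasurable Ce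
    (Eventually.of_forall hCe)
  have hsm : Measurable[mX] s := by
    have : s = fun x => e x + h x := funext hse'
    rw [this]
    exact hem.add hhm
  have hsi : Integrable s μ := by
    have : s = e + h := funext hse'
    rw [this]
    exact hei.add hhi
  have hh0 : (0 : X → ℂ) =ᵐ[μ] μ[h | mY] := by
    refine ae_eq_condExp_of_forall_setIntegral_eq hYX hhi (fun B _ _ => integrableOn_zero)
      (fun B hB _ => ?_) stronglyMeasurable_zero.aestronglyMeasurable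
    rw [hvan B hB]
    simp
  have hes : μ[s | mY] =ᵐ[μ] e := by
    have e1 : s = e + h := funext hse'
    have h1 := condExp_add (μ := μ) hei hhi mY
    rw [← e1] at h1
    have h2 : μ[e | mY] = e := condExp_of_stronglyMeasurable hYX he.stronglyMeasurable hei
    filter_upwards [h1, hh0] with x hx1 hx2
    rw [hx1, Pi.add_apply, h2, ← hx2]
    simp
  have hdiff : ∀ᵐ x ∂μ, (μ[f - s | mY]) x = e₀ x - e x := by
    have h1 := condExp_sub (μ := μ) hfi hsi mY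
    filter_upwards [h1, hee, hes] with x hx1 hx2 hx3
    rw [hx1, Pi.sub_apply, hx2, hx3]
  have hid : ∀ x, f x - e₀ x - h x = (f x - s x) - (e₀ x - e x) := by
    intro x
    rw [hse']
    ring
  refine ⟨h, hh, fun ε hε => ?_, fun ε hε0 hε => ?_⟩
  · have h1 := integral_norm_condExp_le (μ := μ) (m := mY) (f - s)
    have h2 : ∫ x, ‖e₀ x - e x‖ ∂μ ≤ ε := by
      refine le_trans (le_of_eq ?_) (h1.trans hε)
      apply integral_congr_ae
      filter_upwards [hdiff] with x hx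
      rw [hx]
    have hi1 : Integrable (fun x => ‖f x - s x‖) μ := (hfi.sub hsi).norm
    have hi2 : Integrable (fun x => ‖e₀ x - e x‖) μ := by
      have : Integrable (μ[f - s | mY]) μ := integrable_condExp
      refine this.norm.congr ?_
      filter_upwards [hdiff] with x hx
      rw [hx]
    calc ∫ x, ‖f x - e₀ x - h x‖ ∂μ ≤ ∫ x, (‖f x - s x‖ + ‖e₀ x - e x‖) ∂μ := by
          refine integral_mono_of_nonneg (Eventually.of_forall fun x => norm_nonneg _)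
            (hi1.add hi2) (Eventually.of_forall fun x => ?_)
          show ‖f x - e₀ x - h x‖ ≤ ‖f x - s x‖ + ‖e₀ x - e x‖
          rw [hid]
          exact norm_sub_le _ _
      _ = ∫ x, ‖f x - s x‖ ∂μ + ∫ x, ‖e₀ x - e x‖ ∂μ := integral_add hi1 hi2
      _ ≤ 2 * ε := by linarith
  · have h1 : ∀ᵐ x ∂μ, ‖(μ[f - s | mY]) x‖ ≤ ε :=
      ae_bdd_norm_condExp_of_ae_bdd_norm (μ := μ) (m := mY) (f := f - s) hε
    filter_upwards [hε, h1, hdiff] with x hx1 hx2 hx3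
    rw [hx3] at hx2
    rw [hid]
    exact (norm_sub_le _ _).trans (by linarith)

/-- **The base is characteristic (two-sided averages).** -/
theorem two_sided {m : ℕ} (hFl : Flow μ Φ) (hYX : mY ≤ mX)
    (hinv : ∀ a, Measurable[mY, mY] (Φ a : X → X))
    {𝒟 : Set (X → ℝ)} {ρ : G → ℝ} (hM : Mix μ mY Φ 𝒟 ρ (2 * m)) (g : Fin m → ℤ → G)
    (h1 : ∀ i j, Summable fun p : ℤ × ℤ => ρ (g i p.1 * (g j p.2)⁻¹) /
      (1 + max |(p.1 : ℝ)| |(p.2 : ℝ)|) ^ 2)
    (h2 : ∀ i j, i ≠ j → Summable fun n : ℤ => ρ (g i n * (g j n)⁻¹) / (1 + |(n : ℝ)|))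
    {f : Fin m → X → ℂ} (hf : ∀ j, MemLp (f j) ∞ μ)
    (hcase : ∀ j, (((∃ b : G, ∀ n, g j n = b ^ n) ∨
        SingleAveragesConverge μ (fun n => (Φ (g j n) : X → X))) ∧
        ∀ ε : ℝ, 0 < ε → ∃ s ∈ Sums mY 𝒟, ∫ x, ‖f j x - s x‖ ∂μ ≤ ε) ∨
      ∀ ε : ℝ, 0 < ε → ∃ s ∈ Sums mY 𝒟, ∀ᵐ x ∂μ, ‖f j x - s x‖ ≤ ε) :
    ∀ᵐ x ∂μ, Tendsto (fun N : ℕ => ((2 * N + 1 : ℕ) : ℂ)⁻¹ *
      ∑ n ∈ Finset.Icc (-(N : ℤ)) (N : ℤ), (∏ j, f j (Φ (g j n) x) -
        ∏ j, (μ[f j | mY]) (Φ (g j n) x))) atTop (𝓝 0) := by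
  choose F hF hfF using fun j => BM_of_memLp (hf j)
  choose e he heY hee hfe using fun j => exists_cond (μ := μ) hYX (hF j)
  have hgood : ∀ j, ((∃ b : G, ∀ n, g j n = b ^ n) ∨
        SingleAveragesConverge μ (fun n => (Φ (g j n) : X → X))) →
      @Good ℕ ℤ X mX atTop (fun N : ℕ => Finset.Icc (-(N : ℤ)) (N : ℤ)) μ
        (fun n => (Φ (g j n) : X → X)) := by
    intro j hj
    rcases hj with ⟨b, hb⟩ | hs
    · have h3 := good_pow (P := μ) (Φ b) (hFl b) (by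
        rw [← map_inv]
        exact hFl b⁻¹)
      have h4 : (fun n => (Φ (g j n) : X → X)) = fun (n : ℤ) (z : X) => ((Φ b) ^ n) z := by
        funext n z
        rw [hb, map_zpow]
      rw [h4]
      exact h3
    · intro H hH hC
      filter_upwards [hs H hH hC] with x hx
      obtain ⟨L, hL⟩ := hx
      refine ⟨L, hL.congr fun N => ?_⟩
      rw [avr, Icc_card]
  have hslot : ∀ j, App atTop (fun N : ℕ => Finset.Icc (-(N : ℤ)) (N : ℤ)) μ Φ (g j)
      (Bas mY 𝒟) fun x => F j x - e j x := by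
    intro j
    have hm1 : 1 ≤ 2 * m := by
      have := j.2
      omega
    obtain ⟨Fm, CF, hCF⟩ := id (hF j)
    obtain ⟨em, Ce, hCe⟩ := id (he j)
    refine ⟨⟨Fm.sub em, CF + Ce, fun x => (norm_sub_le _ _).trans
      (add_le_add (hCF x) (hCe x))⟩, ?_⟩
    rcases hcase j with ⟨hg, happ⟩ | happ
    · left
      refine ⟨hgood j hg, fun ε hε => ?_⟩
      obtain ⟨s, hs, hsε⟩ := happ (ε / 2) (by positivity)
      obtain ⟨h, hh, h3, -⟩ := approx_sub hYX hM hm1 (hF j) (hee j) hs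
      refine ⟨h, hh, (h3 (ε / 2) ?_).trans (by linarith)⟩
      refine le_trans (le_of_eq ?_) hsε
      apply integral_congr_ae
      filter_upwards [hfF j] with x hx
      rw [hx]
    · right
      intro ε hε
      obtain ⟨s, hs, hsε⟩ := happ (ε / 2) (by positivity)
      obtain ⟨h, hh, -, h3⟩ := approx_sub hYX hM hm1 (hF j) (hee j) hs
      refine ⟨h, hh, ?_⟩
      have h5 := h3 (ε / 2) (by positivity) (by
        filter_upwards [hsε, hfF j] with x hx1 hx2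
        rw [← hx2]
        exact hx1)
      filter_upwards [h5] with x hx
      linarith
  have hmain := char (𝔣 := atTop) (Bx := fun N : ℕ => Finset.Icc (-(N : ℤ)) (N : ℤ))
    hFl hYX hinv hM (by rw [Fintype.card_fin]) (g := g)
    (fun C hC => LP_two_sided (fun p => mul_nonneg hC (qb_nonneg hM.nonneg g p))
      (summable_qb hM.nonneg h1 h2 C)) he heY hslot
  have h5 : ∀ᵐ x ∂μ, ∀ (n : ℤ) (j : Fin m), f j (Φ (g j n) x) = F j (Φ (g j n) x) := by
    rw [ae_all_iff]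
    intro n
    rw [ae_all_iff]
    intro j
    exact (hFl _).quasiMeasurePreserving.ae (hfF j)
  have h6 : ∀ᵐ x ∂μ, ∀ (n : ℤ) (j : Fin m),
      (μ[f j | mY]) (Φ (g j n) x) = e j (Φ (g j n) x) := by
    rw [ae_all_iff]
    intro n
    rw [ae_all_iff]
    intro j
    have h3 : μ[f j | mY] =ᵐ[μ] e j := (condExp_congr_ae (hfF j)).trans (hee j).symm
    exact (hFl _).quasiMeasurePreserving.ae h3
  filter_upwards [hmain, h5, h6] with x hx hx1 hx2
  refine hx.congr fun N => ?_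
  rw [av, Icc_card]
  congr 1
  refine Finset.sum_congr rfl fun n _ => ?_
  congr 1
  · exact Finset.prod_congr rfl fun j _ => (hx1 n j).symm
  · exact Finset.prod_congr rfl fun j _ => (hx2 n j).symm

end Pool.Agent.Helper77.MX
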