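import Pool.Agent.Helper77.MX.Count
import Pool.Agent.Helper77.KS.Count

/-!
# Sums over pairs of integers of negative powers of a polynomial in two variables
-/

set_option autoImplicit false

open Filter Topology Polynomial

noncomputable section

namespace Pool.Agent.Helper77.MX

theorem low_lead {a : ℝ[X]} (ha : a ≠ 0) :
    ∃ c : ℝ, 0 < c ∧ {n : ℤ | |a.eval (n : ℝ)| < c}.Finite := by
  by_cases h : 0 < a.natDegree
  · refine ⟨1, one_pos, (Pool.Agent.Helper77.KS.finite_close h 1 0).subset fun n hn => ?_⟩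
    show |a.eval (n : ℝ) - 0| < 1
    rw [sub_zero]
    exact hn
  · have h0 : a.natDegree = 0 := by omega
    rw [eq_C_of_natDegree_eq_zero h0] at ha ⊢
    have h1 : a.coeff 0 ≠ 0 := fun h => ha (by rw [h, map_zero])
    refine ⟨|a.coeff 0|, abs_pos.2 h1, ?_⟩
    have : {n : ℤ | |(C (a.coeff 0)).eval (n : ℝ)| < |a.coeff 0|} = ∅ := by
      ext n
      simp
    rw [this]
    exact Set.finite_empty

/-- **Sums over pairs.** -/
theorem summable_pairs {R : ℝ[X][X]} (hR : ¬ ∃ c : ℝ, ∀ n n' : ℤ, R.evalEval (n : ℝ) (n' : ℝ) = c)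
    {δ : ℝ} (hδ : 0 < δ) :
    Summable fun p : ℤ × ℤ => (1 + |R.evalEval (p.1 : ℝ) (p.2 : ℝ)|) ^ (-δ) /
      (1 + max |(p.1 : ℝ)| |(p.2 : ℝ)|) ^ 2 := by
  have hred : Summable (fun p : ℤ × ℤ => (1 + |R.evalEval (p.1 : ℝ) (p.2 : ℝ)|) ^ (-(min δ 1)) /
      (1 + max |(p.1 : ℝ)| |(p.2 : ℝ)|) ^ 2) → Summable fun p : ℤ × ℤ =>
        (1 + |R.evalEval (p.1 : ℝ) (p.2 : ℝ)|) ^ (-δ) /
      (1 + max |(p.1 : ℝ)| |(p.2 : ℝ)|) ^ 2 := by
    intro h
    refine Summable.of_nonneg_of_le (fun p => by positivity) (fun p => ?_) h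
    refine div_le_div_of_nonneg_right ?_ (by positivity)
    refine Real.rpow_le_rpow_of_exponent_le ?_ (by linarith [min_le_left δ 1])
    linarith [abs_nonneg (R.evalEval (p.1 : ℝ) (p.2 : ℝ))]
  apply hred
  have hδ' : 0 < min δ 1 := lt_min hδ one_pos
  have hδ1 : min δ 1 ≤ 1 := min_le_right _ _
  by_cases hd : 0 < R.natDegree
  · have hR0 : R ≠ 0 := by
      rintro rfl
      simp at hd
    obtain ⟨c, hc, hfin⟩ := low_lead (leadingCoeff_ne_zero.2 hR0)
    refine (summable_family (P := fun n : ℤ => R.map (evalRingHom (n : ℝ))) (d := R.natDegree) hd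
      hc hfin (fun n hn => ?_) hδ' hδ1).congr fun p => ?_
    · have hn' : c ≤ |R.leadingCoeff.eval (n : ℝ)| := not_lt.1 hn
      have hne : evalRingHom (n : ℝ) R.leadingCoeff ≠ 0 := by
        intro h
        rw [coe_evalRingHom] at h
        rw [h, abs_zero] at hn'
        linarith
      refine ⟨natDegree_map_of_leadingCoeff_ne_zero _ hne, ?_⟩
      rw [leadingCoeff_map_of_leadingCoeff_ne_zero _ hne, coe_evalRingHom]
      exact hn'
    · rw [map_evalRingHom_eval]
  · have h0 : R.natDegree = 0 := by omega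
    set a := R.coeff 0 with ha
    have hRa : R = C a := eq_C_of_natDegree_eq_zero h0
    have hev : ∀ n n' : ℤ, R.evalEval (n : ℝ) (n' : ℝ) = a.eval (n : ℝ) := by
      intro n n'
      rw [hRa, evalEval_C]
    have had : 0 < a.natDegree := by
      by_contra h
      have h1 : a.natDegree = 0 := by omega
      refine hR ⟨a.coeff 0, fun n n' => ?_⟩
      rw [hev, eq_C_of_natDegree_eq_zero h1]
      simp
    have ha0 : a ≠ 0 := by
      rintro h
      rw [h] at had
      simp at had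
    have h2 := summable_family (P := fun _ : ℤ => a) (d := a.natDegree) had
      (abs_pos.2 (leadingCoeff_ne_zero.2 ha0)) Set.finite_empty (fun n _ => ⟨rfl, le_rfl⟩) hδ' hδ1
    have h3 := h2.comp_injective (Prod.swap_injective (α := ℤ) (β := ℤ))
    refine h3.congr fun p => ?_
    rw [Function.comp_apply, hev]
    rw [Prod.fst_swap, Prod.snd_swap, max_comm]

/-- **Diagonal sums.** -/
theorem summable_line {R : ℝ[X][X]} (hR : ¬ ∃ c : ℝ, ∀ n : ℤ, R.evalEval (n : ℝ) (n : ℝ) = c)
    {δ : ℝ} (hδ : 0 < δ) :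
    Summable fun n : ℤ => (1 + |R.evalEval (n : ℝ) (n : ℝ)|) ^ (-δ) / (1 + |(n : ℝ)|) := by
  have hev : ∀ n : ℤ, R.evalEval (n : ℝ) (n : ℝ) = (R.eval X).eval (n : ℝ) := by
    intro n
    have h1 := eval₂_at_apply (p := R) (evalRingHom (n : ℝ)) (X : ℝ[X])
    have h2 := eval₂_at_apply (p := R) (evalRingHom (n : ℝ)) (C (n : ℝ) : ℝ[X])
    rw [coe_evalRingHom] at h1 h2
    rw [eval_X] at h1
    rw [eval_C] at h2
    exact h2.symm.trans h1
  have hq : 0 < (R.eval X).natDegree := by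
    by_contra h
    have h1 : (R.eval X).natDegree = 0 := by omega
    refine hR ⟨(R.eval X).coeff 0, fun n => ?_⟩
    rw [hev, eq_C_of_natDegree_eq_zero h1]
    simp
  refine Summable.of_nonneg_of_le (fun p => by positivity) (fun n => ?_)
    (summable_diagonal hq (lt_min hδ one_pos) (min_le_right δ 1))
  refine div_le_div_of_nonneg_right ?_ (by positivity)
  rw [hev]
  refine Real.rpow_le_rpow_of_exponent_le ?_ (by linarith [min_le_left δ 1])
  linarith [abs_nonneg ((R.eval X).eval (n : ℝ))]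

end Pool.Agent.Helper77.MX
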