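import Pool.Agent.Helper77.KS.Cplx

/-!
# Actions which are mixing with a rate relative to a factor: real functions
-/

set_option autoImplicit false
set_option linter.unusedSectionVars false

open MeasureTheory Filter Topology

noncomputable section

namespace Pool.Agent.Helper77.MX

open Pool.Agent.TH784.KE (Flow)
open Pool.Agent.TH739.PA (av avr Good LP avr_mul mx LP_two_sided)

variable {X : Type} {mY mX : MeasurableSpace X} {μ : Measure X} [IsProbabilityMeasure μ]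
variable {G : Type} [Group G] {Φ : G →* Equiv.Perm X}

/-- The action is mixing of the orders up to `K` relative to `𝒴`, for the functions in `𝒟`, with the
rate `ρ`. -/
structure Mix (μ : Measure X) (mY : MeasurableSpace X) (Φ : G →* Equiv.Perm X)
    (𝒟 : Set (X → ℝ)) (ρ : G → ℝ) (K : ℕ) : Prop where
  bdd : ∀ u ∈ 𝒟, Measurable[mX] u ∧ ∃ C : ℝ, ∀ x, |u x| ≤ C
  nonneg : ∀ g, 0 ≤ ρ g
  mix : ∀ k : ℕ, 1 ≤ k → k ≤ K → ∀ u : Fin k → X → ℝ, (∀ i, u i ∈ 𝒟) → ∃ C : ℝ,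
    ∀ (h : Fin k → G) (W : X → ℝ), Measurable[mY] W → (∀ x, |W x| ≤ 1) →
      |∫ x, W x * ∏ i, u i (Φ (h i) x) ∂μ| ≤
        C * ∑ i, ∑ j ∈ Finset.univ.erase i, ρ (h i * (h j)⁻¹)

/-- the same for every finite index set -/
theorem Mix.gen {𝒟 : Set (X → ℝ)} {ρ : G → ℝ} {K : ℕ} (hM : Mix μ mY Φ 𝒟 ρ K)
    (α : Type) [Fintype α] [DecidableEq α] [Nonempty α] (hα : Fintype.card α ≤ K)
    (u : α → X → ℝ) (hu : ∀ i, u i ∈ 𝒟) : ∃ C : ℝ, 0 ≤ C ∧
    ∀ (h : α → G) (W : X → ℝ), Measurable[mY] W → (∀ x, |W x| ≤ 1) →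
      |∫ x, W x * ∏ i, u i (Φ (h i) x) ∂μ| ≤
        C * ∑ i, ∑ j ∈ Finset.univ.erase i, ρ (h i * (h j)⁻¹) := by
  classical
  set e := Fintype.equivFin α with he
  obtain ⟨C, hC⟩ := hM.mix (Fintype.card α) Fintype.card_pos hα (fun i => u (e.symm i))
    (fun i => hu _)
  refine ⟨|C|, abs_nonneg _, fun h W hW hW1 => ?_⟩
  have h1 := hC (fun i => h (e.symm i)) W hW hW1
  have h2 : ∀ x, ∏ i, u (e.symm i) (Φ (h (e.symm i)) x) = ∏ i, u i (Φ (h i) x) := fun x =>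
    Fintype.prod_equiv e.symm _ _ fun i => rfl
  have h3 : ∑ i, ∑ j ∈ Finset.univ.erase i, ρ (h (e.symm i) * (h (e.symm j))⁻¹) =
      ∑ i, ∑ j ∈ Finset.univ.erase i, ρ (h i * (h j)⁻¹) := by
    refine Fintype.sum_equiv e.symm _ _ fun i => ?_
    refine Finset.sum_nbij' (fun j => e.symm j) (fun j => e j) ?_ ?_ ?_ ?_ ?_
    · intro j hj
      rw [Finset.mem_erase] at hj ⊢
      exact ⟨fun h => hj.1 (e.symm.injective h), Finset.mem_univ _⟩
    · intro j hj
      rw [Finset.mem_erase] at hj ⊢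
      refine ⟨fun h => hj.1 ?_, Finset.mem_univ _⟩
      rw [← h, e.symm_apply_apply]
    · intro j _
      exact e.apply_symm_apply j
    · intro j _
      exact e.symm_apply_apply j
    · intro j _
      rfl
  simp only [h2] at h1
  rw [h3] at h1
  refine h1.trans (mul_le_mul_of_nonneg_right (le_abs_self C) ?_)
  exact Finset.sum_nonneg fun i _ => Finset.sum_nonneg fun j _ => hM.nonneg _

variable {J : Type} [DecidableEq J] [Fintype J] {I ι : Type} {𝔣 : Filter I} {Bx : I → Finset ι}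

/-- The bound for the correlation of two terms. -/
def qb (ρ : G → ℝ) (g : J → ι → G) (p : ι × ι) : ℝ :=
  (∑ i, ∑ j ∈ Finset.univ.erase i, ρ (g i p.1 * (g j p.1)⁻¹)) +
  (∑ i, ∑ j ∈ Finset.univ.erase i, ρ (g i p.2 * (g j p.2)⁻¹)) +
  (∑ i, ∑ j, ρ (g i p.1 * (g j p.2)⁻¹)) + ∑ i, ∑ j, ρ (g i p.2 * (g j p.1)⁻¹)

theorem qb_nonneg {ρ : G → ℝ} (hρ : ∀ g, 0 ≤ ρ g) (g : J → ι → G) (p : ι × ι) :
    0 ≤ qb ρ g p := by
  unfold qb
  have h1 : ∀ n, 0 ≤ ∑ i, ∑ j ∈ Finset.univ.erase i, ρ (g i n * (g j n)⁻¹) := fun n =>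
    Finset.sum_nonneg fun i _ => Finset.sum_nonneg fun j _ => hρ _
  have h2 : ∀ n n', 0 ≤ ∑ i, ∑ j, ρ (g i n * (g j n')⁻¹) := fun n n' =>
    Finset.sum_nonneg fun i _ => Finset.sum_nonneg fun j _ => hρ _
  have := h1 p.1
  have := h1 p.2
  have := h2 p.1 p.2
  have := h2 p.2 p.1
  linarith

/-- **Second moments.** -/
theorem second (hFl : Flow μ Φ) (hYX : mY ≤ mX) (hinv : ∀ a, Measurable[mY, mY] (Φ a : X → X))
    {𝒟 : Set (X → ℝ)} {ρ : G → ℝ} {K : ℕ} (hM : Mix μ mY Φ 𝒟 ρ K)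
    {S : Finset J} (hS : S.Nonempty) (hK : 2 * S.card ≤ K) (g : J → ι → G)
    {u : J → X → ℝ} (hu : ∀ v ∈ S, u v ∈ 𝒟) :
    ∃ C : ℝ, 0 ≤ C ∧ ∀ c : J → X → ℝ, (∀ v, Measurable[mY] (c v)) → (∀ v x, |c v x| ≤ 1) →
      ∀ B : Finset ι,
      ∫ x, (∑ n ∈ B, (∏ v, c v (Φ (g v n) x)) * ∏ v ∈ S, u v (Φ (g v n) x)) ^ 2 ∂μ ≤
        ∑ p ∈ B ×ˢ B, C * qb ρ g p := by
  classical
  have : Nonempty S := hS.to_subtype
  have hcard : Fintype.card (S ⊕ S) ≤ K := by
    rw [Fintype.card_sum, Fintype.card_coe]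
    omega
  obtain ⟨C, hC0, hC⟩ := hM.gen (S ⊕ S) hcard
    (fun a => Sum.elim (fun v : S => u v) (fun v : S => u v) a)
    (fun a => by
      rcases a with v | v
      · exact hu v v.2
      · exact hu v v.2)
  refine ⟨C, hC0, fun c hc hc1 B => ?_⟩
  have hum : ∀ v ∈ S, Measurable[mX] (u v) := fun v hv => (hM.bdd _ (hu v hv)).1
  choose! Cu hCu using fun v (hv : v ∈ S) => (hM.bdd _ (hu v hv)).2
  set W : ι → X → ℝ := fun n x => ∏ v, c v (Φ (g v n) x) with hWdef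
  have hW : ∀ n, Measurable[mY] (W n) ∧ ∀ x, |W n x| ≤ 1 := by
    intro n
    refine ⟨Finset.measurable_fun_prod _ fun v _ => (hc v).comp (hinv _), fun x => ?_⟩
    rw [hWdef]
    simp only
    rw [Finset.abs_prod]
    exact Finset.prod_le_one (fun _ _ => abs_nonneg _) fun v _ => hc1 v _
  set D : ι → X → ℝ := fun n x => W n x * ∏ v ∈ S, u v (Φ (g v n) x) with hD
  have hDm : ∀ n, Measurable (D n) := fun n =>
    ((hW n).1.mono hYX le_rfl).mul (Finset.measurable_fun_prod _ fun v hv =>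
      (hum v hv).comp (hFl _).measurable)
  have hDb : ∀ n x, |D n x| ≤ ∏ v ∈ S, |Cu v| := by
    intro n x
    have e1 : |∏ v ∈ S, u v (Φ (g v n) x)| ≤ ∏ v ∈ S, |Cu v| := by
      rw [Finset.abs_prod]
      exact Finset.prod_le_prod (fun _ _ => abs_nonneg _)
        fun v hv => (hCu v hv _).trans (le_abs_self _)
    show |W n x * ∏ v ∈ S, u v (Φ (g v n) x)| ≤ _
    rw [abs_mul]
    calc |W n x| * |∏ v ∈ S, u v (Φ (g v n) x)| ≤ 1 * ∏ v ∈ S, |Cu v| :=
          mul_le_mul ((hW n).2 x) e1 (abs_nonneg _) zero_le_one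
      _ = _ := one_mul _
  have hP0 : 0 ≤ ∏ v ∈ S, |Cu v| := Finset.prod_nonneg fun _ _ => abs_nonneg _
  have hint : ∀ p : ι × ι, Integrable (fun x => D p.1 x * D p.2 x) μ := fun p =>
    Integrable.of_bound ((hDm _).mul (hDm _)).aestronglyMeasurable
      ((∏ v ∈ S, |Cu v|) * ∏ v ∈ S, |Cu v|)
      (Eventually.of_forall fun x => by
        rw [Real.norm_eq_abs, abs_mul]
        exact mul_le_mul (hDb _ x) (hDb _ x) (abs_nonneg _) hP0)
  have e : (fun x => (∑ n ∈ B, D n x) ^ 2) = fun x => ∑ p ∈ B ×ˢ B, D p.1 x * D p.2 x := by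
    funext x
    rw [sq, Finset.sum_mul_sum, ← Finset.sum_product']
  show ∫ x, (∑ n ∈ B, D n x) ^ 2 ∂μ ≤ _
  rw [e, integral_finsetSum _ fun p _ => hint p]
  refine Finset.sum_le_sum fun p _ => ?_
  have hWW : Measurable[mY] (fun x => W p.1 x * W p.2 x) := (hW _).1.mul (hW _).1
  have hWW1 : ∀ x, |W p.1 x * W p.2 x| ≤ 1 := fun x => by
    rw [abs_mul]
    exact mul_le_one₀ ((hW _).2 x) (abs_nonneg _) ((hW _).2 x)
  have h1 := hC (fun a => Sum.elim (fun v : S => g v p.1) (fun v : S => g v p.2) a)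
    (fun x => W p.1 x * W p.2 x) hWW hWW1
  have h2 : ∀ x, (W p.1 x * W p.2 x) * ∏ a : S ⊕ S, (Sum.elim (fun v : S => u v) (fun v : S => u v) a)
      (Φ (Sum.elim (fun v : S => g v p.1) (fun v : S => g v p.2) a) x) =
      D p.1 x * D p.2 x := by
    intro x
    rw [Fintype.prod_sum_type]
    simp only [Sum.elim_inl, Sum.elim_inr]
    rw [Finset.prod_coe_sort S (fun v => u v (Φ (g v p.1) x)),
      Finset.prod_coe_sort S (fun v => u v (Φ (g v p.2) x)), hD]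
    ring
  simp only [h2] at h1
  refine ((le_abs_self _).trans h1).trans (mul_le_mul_of_nonneg_left ?_ hC0)
  -- the sum over pairs
  have hρ := hM.nonneg
  have hsub : ∀ (n n' : ι), ∑ v : S, ∑ w : S, ρ (g v n * (g w n')⁻¹) ≤
      ∑ i, ∑ j, ρ (g i n * (g j n')⁻¹) := by
    intro n n'
    rw [Finset.sum_coe_sort S (fun v => ∑ w : S, ρ (g v n * (g w n')⁻¹))]
    refine (Finset.sum_le_sum (g := fun i => ∑ j, ρ (g i n * (g j n')⁻¹)) fun v _ => ?_).trans
      (Finset.sum_le_sum_of_subset_of_nonneg (Finset.subset_univ _) fun _ _ _ =>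
        Finset.sum_nonneg fun _ _ => hρ _)
    rw [Finset.sum_coe_sort S (fun w => ρ (g v n * (g w n')⁻¹))]
    exact Finset.sum_le_sum_of_subset_of_nonneg (Finset.subset_univ _) fun _ _ _ => hρ _
  have hsub' : ∀ n : ι, ∑ v : S, ∑ w ∈ Finset.univ.erase v, ρ (g v n * (g (w : J) n)⁻¹) ≤
      ∑ i, ∑ j ∈ Finset.univ.erase i, ρ (g i n * (g j n)⁻¹) := by
    intro n
    have h3 : ∀ v : S, ∑ w ∈ Finset.univ.erase v, ρ (g v n * (g (w : J) n)⁻¹) ≤
        ∑ j ∈ Finset.univ.erase (v : J), ρ (g v n * (g j n)⁻¹) := by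
      intro v
      rw [← Finset.sum_image (s := Finset.univ.erase v) (g := fun w : S => (w : J))
        (f := fun j => ρ (g v n * (g j n)⁻¹)) (fun a _ b _ h => Subtype.ext h)]
      refine Finset.sum_le_sum_of_subset_of_nonneg (fun j hj => ?_) fun _ _ _ => hρ _
      obtain ⟨w, hw, rfl⟩ := Finset.mem_image.1 hj
      refine Finset.mem_erase.2 ⟨fun h => (Finset.mem_erase.1 hw).1 (Subtype.ext h),
        Finset.mem_univ _⟩
    refine (Finset.sum_le_sum fun v _ => h3 v).trans ?_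
    rw [Finset.sum_coe_sort S (fun v => ∑ j ∈ Finset.univ.erase v, ρ (g v n * (g j n)⁻¹))]
    exact Finset.sum_le_sum_of_subset_of_nonneg (Finset.subset_univ _) fun _ _ _ =>
      Finset.sum_nonneg fun _ _ => hρ _
  rw [Fintype.sum_sum_type]
  have hinl : ∀ v : S, ∑ a ∈ (Finset.univ.erase (Sum.inl v) : Finset (S ⊕ S)),
      ρ (Sum.elim (fun v : S => g v p.1) (fun v : S => g v p.2) (Sum.inl v) *
        (Sum.elim (fun v : S => g v p.1) (fun v : S => g v p.2) a)⁻¹) =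
      ∑ w ∈ Finset.univ.erase v, ρ (g v p.1 * (g (w : J) p.1)⁻¹) +
        ∑ w : S, ρ (g v p.1 * (g w p.2)⁻¹) := by
    intro v
    have h5 : (Finset.univ.erase (Sum.inl v) : Finset (S ⊕ S)) =
        (Finset.univ.erase v).disjSum Finset.univ := by
      ext a
      rcases a with a | a <;> simp
    rw [h5, Finset.sum_disjSum]
    rfl
  have hinr : ∀ v : S, ∑ a ∈ (Finset.univ.erase (Sum.inr v) : Finset (S ⊕ S)),
      ρ (Sum.elim (fun v : S => g v p.1) (fun v : S => g v p.2) (Sum.inr v) *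
        (Sum.elim (fun v : S => g v p.1) (fun v : S => g v p.2) a)⁻¹) =
      ∑ w : S, ρ (g v p.2 * (g w p.1)⁻¹) +
        ∑ w ∈ Finset.univ.erase v, ρ (g v p.2 * (g (w : J) p.2)⁻¹) := by
    intro v
    have h5 : (Finset.univ.erase (Sum.inr v) : Finset (S ⊕ S)) =
        Finset.univ.disjSum (Finset.univ.erase v) := by
      ext a
      rcases a with a | a <;> simp
    rw [h5, Finset.sum_disjSum]
    rfl
  rw [Finset.sum_congr rfl fun v _ => hinl v, Finset.sum_congr rfl fun v _ => hinr v,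
    Finset.sum_add_distrib, Finset.sum_add_distrib]
  unfold qb
  have a1 := hsub' p.1
  have a2 := hsub' p.2
  have a3 := hsub p.1 p.2
  have a4 := hsub p.2 p.1
  linarith

end Pool.Agent.Helper77.MX
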